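import Pool.Agent.Run7.h208.ConeMax

set_option autoImplicit false

namespace Run7.h208.Cone

open Set Filter Topology Function Metric

/-- No isometric immersion of the disc `|s| < 1` with the metric `8 |ds| / (16 + |s|^2)` sends a
circle `|s| = R` close to the boundary into a ball of radius `1 / 8`. -/
theorem no_disc {F : ℂ → E3} (hF : ContDiffOn ℝ 2 F (ball 0 1))
    (hm : ∀ s ∈ ball (0:ℂ) 1, ∀ v, ‖fderiv ℝ F s v‖ = 8 / (16 + ‖s‖ ^ 2) * ‖v‖)
    {R : ℝ} (hR0 : 0 < R) (hR1 : R < 1) (hR : 99 / 100 ≤ R ^ 2) (W : E3)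
    (hW : ∀ s : ℂ, ‖s‖ = R → ‖F s - W‖ ≤ 1 / 8) : False := by
  have hFat : ∀ s ∈ ball (0:ℂ) 1, ContDiffAt ℝ 2 F s := fun s hs =>
    hF.contDiffAt (isOpen_ball.mem_nhds hs)
  have hsub : closedBall (0:ℂ) R ⊆ ball 0 1 := closedBall_subset_ball hR1
  -- global bound
  have hfd : ∀ s ∈ ball (0:ℂ) 1, ‖fderiv ℝ F s‖ ≤ 1 / 2 := by
    intro s hs
    refine ContinuousLinearMap.opNorm_le_bound _ (by norm_num) fun v => ?_
    rw [hm s hs v]
    have : 8 / (16 + ‖s‖ ^ 2) ≤ 1 / 2 := by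
      rw [div_le_div_iff₀ (by positivity) (by norm_num)]
      nlinarith [sq_nonneg ‖s‖]
    gcongr
  have hlip : ∀ s ∈ ball (0:ℂ) 1, ∀ s' ∈ ball (0:ℂ) 1, ‖F s - F s'‖ ≤ 1 / 2 * ‖s - s'‖ := by
    intro s hs s' hs'
    exact (convex_ball (0:ℂ) 1).norm_image_sub_le_of_norm_fderiv_le
      (fun x hx => (hFat x hx).differentiableAt (by norm_num)) hfd hs' hs
  have hbound : ∀ s ∈ closedBall (0:ℂ) R, ‖F s - W‖ ≤ 5 / 8 := by
    intro s hs
    rw [mem_closedBall_zero_iff] at hs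
    obtain ⟨s', h1, h2⟩ : ∃ s' : ℂ, ‖s'‖ = R ∧ ‖s - s'‖ ≤ 1 := by
      by_cases h0 : s = 0
      · refine ⟨(R : ℂ), ?_, ?_⟩
        · simp [abs_of_pos hR0]
        · rw [h0, zero_sub, norm_neg]; simp [abs_of_pos hR0]; linarith
      · have hn : 0 < ‖s‖ := norm_pos_iff.2 h0
        have hne : ((‖s‖ : ℝ) : ℂ) ≠ 0 := by exact_mod_cast hn.ne'
        refine ⟨((R / ‖s‖ : ℝ) : ℂ) * s, ?_, ?_⟩
        · rw [norm_mul, Complex.norm_real, Real.norm_eq_abs, abs_of_pos (by positivity)]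
          field_simp
        · have : s - ((R / ‖s‖ : ℝ) : ℂ) * s = ((1 - R / ‖s‖ : ℝ) : ℂ) * s := by
            push_cast; ring
          rw [this, norm_mul, Complex.norm_real, Real.norm_eq_abs]
          have h3 : |1 - R / ‖s‖| * ‖s‖ = |‖s‖ - R| := by
            rw [← abs_of_pos hn, ← abs_mul, abs_of_pos hn]
            congr 1
            field_simp
          rw [h3, abs_le]
          constructor <;> linarith
    have hs1 : s ∈ ball (0:ℂ) 1 := by rw [mem_ball_zero_iff]; linarith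
    have hs2 : s' ∈ ball (0:ℂ) 1 := by rw [mem_ball_zero_iff]; linarith
    have h3 := hlip s hs1 s' hs2
    have h4 := hW s' h1
    calc ‖F s - W‖ = ‖(F s - F s') + (F s' - W)‖ := by congr 1; abel
      _ ≤ ‖F s - F s'‖ + ‖F s' - W‖ := norm_add_le _ _
      _ ≤ 5 / 8 := by linarith
  -- the maximum
  have hcont : ContinuousOn (psi F W) (closedBall 0 R) := by
    have h1 : ContinuousOn F (closedBall 0 R) := hF.continuousOn.mono hsub
    unfold psi
    have h2 : ContinuousOn (fun s : ℂ => 32 / (16 + ‖s‖ ^ 2)) (closedBall 0 R) := by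
      apply ContinuousOn.div continuousOn_const (by fun_prop)
      intro s _
      positivity
    exact (((h1.sub continuousOn_const).norm.pow 2).const_smul (1/2 : ℝ)).add
      ((h2.sub continuousOn_const).const_smul (1/10 : ℝ))
  obtain ⟨s₀, hs₀, hmax⟩ := (isCompact_closedBall (0:ℂ) R).exists_isMaxOn
    ⟨0, by simp [hR0.le]⟩ hcont
  have h0 : psi F W 0 ≤ psi F W s₀ := hmax (by simp [hR0.le])
  have hlt : ‖s₀‖ < R := by
    rw [mem_closedBall_zero_iff] at hs₀
    refine lt_of_le_of_ne hs₀ fun heq => ?_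
    have h1 := hW s₀ heq
    have h2 : psi F W 0 ≥ 1 / 10 := by
      unfold psi
      have : 0 ≤ ‖F 0 - W‖ ^ 2 := sq_nonneg _
      simp only [norm_zero]
      norm_num
    have h3 : psi F W s₀ < 1 / 10 := by
      unfold psi
      rw [heq]
      have h4 : ‖F s₀ - W‖ ^ 2 ≤ (1 / 8) ^ 2 := by gcongr
      have h5 : 32 / (16 + R ^ 2) ≤ 32 / (16 + 99 / 100) := by gcongr
      norm_num at h4 h5
      linarith
    linarith
  have hloc : IsLocalMax (psi F W) s₀ := by
    have hmem : ball (0:ℂ) R ∈ 𝓝 s₀ := isOpen_ball.mem_nhds (by rwa [mem_ball_zero_iff])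
    filter_upwards [hmem] with s hs
    exact hmax (ball_subset_closedBall hs)
  have hs1 : s₀ ∈ ball (0:ℂ) 1 := hsub hs₀
  exact not_local_max (hFat s₀ hs1)
    (by filter_upwards [isOpen_ball.mem_nhds hs1] with s hs using hm s hs) W (hbound s₀ hs₀) hloc

end Run7.h208.Cone
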