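import Mathlib

set_option autoImplicit false

/-!
The Gauss equation for immersions which are only twice continuously differentiable: an
integration argument replaces the third derivatives.
-/

namespace Run7.h208.Cone

open MeasureTheory intervalIntegral Set Filter Topology Function

section general

variable {H : Type*} [NormedAddCommGroup H] [InnerProductSpace ℝ H] [CompleteSpace H]

lemma avg_diff {a a' : ℝ → ℝ → H} (h : ∀ x y, HasDerivAt (fun y => a x y) (a' x y) y)
    (hc : Continuous (uncurry a')) (x y k : ℝ) :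
    a x (y + k) - a x y = k • ∫ t in (0:ℝ)..1, a' x (y + t * k) := by
  have h1 : ∀ t ∈ uIcc (0:ℝ) 1,
      HasDerivAt (fun t : ℝ => a x (y + t * k)) (k • a' x (y + t * k)) t := by
    intro t _
    have h2 : HasDerivAt (fun t : ℝ => y + t * k) k t := by
      simpa using ((hasDerivAt_id t).mul_const k).const_add y
    exact (h x (y + t * k)).scomp t h2
  have hcont : Continuous fun t : ℝ => a' x (y + t * k) :=
    hc.comp (by fun_prop : Continuous fun t : ℝ => ((x, y + t * k) : ℝ × ℝ))
  have h3 := integral_eq_sub_of_hasDerivAt h1 ((hcont.const_smul k).intervalIntegrable _ _)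
  rw [← intervalIntegral.integral_smul, h3]
  simp

omit [CompleteSpace H] in
lemma cont_avg {a' : ℝ → ℝ → H} (hc : Continuous (uncurry a')) (y : ℝ) :
    Continuous (uncurry fun x k : ℝ => ∫ t in (0:ℝ)..1, a' x (y + t * k)) := by
  have : Continuous fun p : ℝ × ℝ => ∫ t in (0:ℝ)..1, a' p.1 (y + t * p.2) := by
    apply intervalIntegral.continuous_parametric_intervalIntegral_of_continuous'
      (f := fun (p : ℝ × ℝ) (t : ℝ) => a' p.1 (y + t * p.2))
    exact hc.comp (by fun_prop : Continuous fun q : (ℝ × ℝ) × ℝ =>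
      ((q.1.1, y + q.2 * q.1.2) : ℝ × ℝ))
  exact this

/-- Exactness of a sum of products `b da` of continuously differentiable functions, when its
coefficients happen to be differentiable: its exterior derivative is `db ∧ da`. -/
theorem weak_exact {a b ax ay bx bY : ℝ → ℝ → H}
    (hax : ∀ x y, HasDerivAt (fun x => a x y) (ax x y) x)
    (hay : ∀ x y, HasDerivAt (fun y => a x y) (ay x y) y)
    (hbx : ∀ x y, HasDerivAt (fun x => b x y) (bx x y) x)
    (hby : ∀ x y, HasDerivAt (fun y => b x y) (bY x y) y)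
    (cax : Continuous (uncurry ax)) (cay : Continuous (uncurry ay))
    (cbx : Continuous (uncurry bx)) (cby : Continuous (uncurry bY))
    {P Py Q Qx : ℝ → ℝ → ℝ}
    (hPy : ∀ x y, HasDerivAt (fun y => P x y) (Py x y) y) (cPy : Continuous (uncurry Py))
    (hQx : ∀ x y, HasDerivAt (fun x => Q x y) (Qx x y) x) (cQx : Continuous (uncurry Qx))
    {x0 y0 τ : ℝ} (hτ : 0 < τ)
    (hP : ∀ x y, |x - x0| < τ → |y - y0| < τ → inner ℝ (b x y) (ax x y) = P x y)
    (hQ : ∀ x y, |x - x0| < τ → |y - y0| < τ → inner ℝ (b x y) (ay x y) = Q x y) :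
    Qx x0 y0 - Py x0 y0 = inner ℝ (bx x0 y0) (ay x0 y0) - inner ℝ (bY x0 y0) (ax x0 y0) := by
  have sl : ∀ {c : ℝ → ℝ → H}, Continuous (uncurry c) → ∀ y, Continuous fun x => c x y :=
    fun hc y => hc.comp (by fun_prop : Continuous fun x : ℝ => ((x, y) : ℝ × ℝ))
  have slr : ∀ {c : ℝ → ℝ → ℝ}, Continuous (uncurry c) → ∀ y, Continuous fun x => c x y :=
    fun hc y => hc.comp (by fun_prop : Continuous fun x : ℝ => ((x, y) : ℝ × ℝ))
  have cbs : ∀ y, Continuous fun x => b x y := fun y =>
    continuous_iff_continuousAt.2 fun x => (hbx x y).continuousAt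
  set α : ℝ → ℝ → H := fun x k => ∫ t in (0:ℝ)..1, ay x (y0 + t * k) with hα
  set β : ℝ → ℝ → H := fun x k => ∫ t in (0:ℝ)..1, bY x (y0 + t * k) with hβ
  set π' : ℝ → ℝ → ℝ := fun x k => ∫ t in (0:ℝ)..1, Py x (y0 + t * k) with hπ
  have cα : Continuous (uncurry α) := cont_avg cay y0
  have cβ : Continuous (uncurry β) := cont_avg cby y0
  have cπ : Continuous (uncurry π') := cont_avg cPy y0
  have α0 : ∀ x, α x 0 = ay x y0 := by intro x; simp [hα]
  have β0 : ∀ x, β x 0 = bY x y0 := by intro x; simp [hβ]
  have π0 : ∀ x, π' x 0 = Py x y0 := by intro x; simp [hπ]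
  -- the identity for small nonzero increments
  have key : ∀ x1, |x1 - x0| < τ → ∀ k, |k| < τ → k ≠ 0 →
      ∫ x in x0..x1, π' x k = (∫ x in x0..x1, inner ℝ (β x k) (ax x (y0 + k)))
        + inner ℝ (b x1 y0) (α x1 k) - inner ℝ (b x0 y0) (α x0 k)
        - ∫ x in x0..x1, inner ℝ (bx x y0) (α x k) := by
    intro x1 hx1 k hk hk0
    have hin : ∀ x ∈ uIcc x0 x1, |x - x0| < τ := by
      intro x hx
      rcases le_total x0 x1 with h | h
      · rw [uIcc_of_le h] at hx
        rw [abs_lt] at hx1 ⊢
        constructor <;> linarith [hx.1, hx.2]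
      · rw [uIcc_of_ge h] at hx
        rw [abs_lt] at hx1 ⊢
        constructor <;> linarith [hx.1, hx.2]
    -- integration by parts in x
    have ibp : ∫ x in x0..x1, (inner ℝ (b x y0) (ax x (y0 + k) - ax x y0)
          + inner ℝ (bx x y0) (a x (y0 + k) - a x y0))
        = inner ℝ (b x1 y0) (a x1 (y0 + k) - a x1 y0)
          - inner ℝ (b x0 y0) (a x0 (y0 + k) - a x0 y0) := by
      apply integral_eq_sub_of_hasDerivAt
      · intro x _
        exact (hbx x y0).inner ℝ ((hax x (y0 + k)).sub (hax x y0))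
      · apply Continuous.intervalIntegrable
        have c1 : Continuous fun x => a x (y0 + k) :=
          continuous_iff_continuousAt.2 fun x => (hax x _).continuousAt
        have c2 : Continuous fun x => a x y0 :=
          continuous_iff_continuousAt.2 fun x => (hax x _).continuousAt
        exact ((cbs y0).inner ((sl cax _).sub (sl cax _))).add
          ((sl cbx y0).inner (c1.sub c2))
    have e1 : ∫ x in x0..x1, (P x (y0 + k) - P x y0) = ∫ x in x0..x1, k * π' x k := by
      apply integral_congr
      intro x _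
      have := avg_diff hPy cPy x y0 k
      simpa using this
    have e2 : ∫ x in x0..x1, (P x (y0 + k) - P x y0) =
        ∫ x in x0..x1, ((k * inner ℝ (β x k) (ax x (y0 + k)))
          + (inner ℝ (b x y0) (ax x (y0 + k) - ax x y0)
          + inner ℝ (bx x y0) (a x (y0 + k) - a x y0))
          - k * inner ℝ (bx x y0) (α x k)) := by
      apply integral_congr
      intro x hx
      have hx' := hin x hx
      have p1 := hP x (y0 + k) hx' (by simpa using hk)
      have p2 := hP x y0 hx' (by simpa using hτ)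
      have p3 := avg_diff hby cby x y0 k
      have p4 := avg_diff hay cay x y0 k
      have p5 : b x (y0 + k) = b x y0 + k • β x k := by rw [hβ, ← p3]; abel
      have p6 : a x (y0 + k) - a x y0 = k • α x k := p4
      show P x (y0 + k) - P x y0 = (k * inner ℝ (β x k) (ax x (y0 + k)))
          + (inner ℝ (b x y0) (ax x (y0 + k) - ax x y0)
          + inner ℝ (bx x y0) (a x (y0 + k) - a x y0))
          - k * inner ℝ (bx x y0) (α x k)
      rw [← p1, ← p2, p6, p5, inner_add_left, inner_smul_left, inner_smul_right, inner_sub_right]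
      simp only [conj_trivial]
      ring
    have i1 : IntervalIntegrable (fun x => k * inner ℝ (β x k) (ax x (y0 + k))) volume x0 x1 :=
      (((sl cβ k).inner (sl cax (y0 + k))).const_mul k).intervalIntegrable _ _
    have i2 : IntervalIntegrable (fun x => (inner ℝ (b x y0) (ax x (y0 + k) - ax x y0)
          + inner ℝ (bx x y0) (a x (y0 + k) - a x y0))) volume x0 x1 := by
      apply Continuous.intervalIntegrable
      have c1 : Continuous fun x => a x (y0 + k) :=
        continuous_iff_continuousAt.2 fun x => (hax x _).continuousAt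
      have c2 : Continuous fun x => a x y0 :=
        continuous_iff_continuousAt.2 fun x => (hax x _).continuousAt
      exact ((cbs y0).inner ((sl cax _).sub (sl cax _))).add
        ((sl cbx y0).inner (c1.sub c2))
    have i3 : IntervalIntegrable (fun x => k * inner ℝ (bx x y0) (α x k)) volume x0 x1 :=
      (((sl cbx y0).inner (sl cα k)).const_mul k).intervalIntegrable _ _
    rw [e1, integral_sub (i1.add i2) i3, integral_add i1 i2, ibp,
      intervalIntegral.integral_const_mul, intervalIntegral.integral_const_mul,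
      intervalIntegral.integral_const_mul] at e2
    have q1 : a x1 (y0 + k) - a x1 y0 = k • α x1 k := avg_diff hay cay x1 y0 k
    have q0 : a x0 (y0 + k) - a x0 y0 = k • α x0 k := avg_diff hay cay x0 y0 k
    rw [q1, q0, inner_smul_right, inner_smul_right] at e2
    have e3 : k * (∫ x in x0..x1, π' x k) = k * ((∫ x in x0..x1, inner ℝ (β x k) (ax x (y0 + k)))
        + inner ℝ (b x1 y0) (α x1 k) - inner ℝ (b x0 y0) (α x0 k)
        - ∫ x in x0..x1, inner ℝ (bx x y0) (α x k)) := by
      rw [e2]; ring
    exact mul_left_cancel₀ hk0 e3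
  -- pass to the limit
  have key0 : ∀ x1, |x1 - x0| < τ →
      ∫ x in x0..x1, Py x y0 = (∫ x in x0..x1, inner ℝ (bY x y0) (ax x y0))
        + Q x1 y0 - Q x0 y0 - ∫ x in x0..x1, inner ℝ (bx x y0) (ay x y0) := by
    intro x1 hx1
    have cL : Continuous fun k => ∫ x in x0..x1, π' x k := by
      apply intervalIntegral.continuous_parametric_intervalIntegral_of_continuous'
        (f := fun (k x : ℝ) => π' x k)
      exact cπ.comp (by fun_prop : Continuous fun q : ℝ × ℝ => ((q.2, q.1) : ℝ × ℝ))
    have cR1 : Continuous fun k => ∫ x in x0..x1, (inner ℝ (β x k) (ax x (y0 + k)) : ℝ) := by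
      apply intervalIntegral.continuous_parametric_intervalIntegral_of_continuous'
        (f := fun (k x : ℝ) => (inner ℝ (β x k) (ax x (y0 + k)) : ℝ))
      exact (cβ.comp (by fun_prop : Continuous fun q : ℝ × ℝ => ((q.2, q.1) : ℝ × ℝ))).inner
        (cax.comp (by fun_prop : Continuous fun q : ℝ × ℝ => ((q.2, y0 + q.1) : ℝ × ℝ)))
    have cR2 : Continuous fun k => ∫ x in x0..x1, (inner ℝ (bx x y0) (α x k) : ℝ) := by
      apply intervalIntegral.continuous_parametric_intervalIntegral_of_continuous'
        (f := fun (k x : ℝ) => (inner ℝ (bx x y0) (α x k) : ℝ))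
      exact (cbx.comp (by fun_prop : Continuous fun q : ℝ × ℝ => ((q.2, y0) : ℝ × ℝ))).inner
        (cα.comp (by fun_prop : Continuous fun q : ℝ × ℝ => ((q.2, q.1) : ℝ × ℝ)))
    have cα' : ∀ x, Continuous fun k => α x k := fun x =>
      cα.comp (by fun_prop : Continuous fun k : ℝ => ((x, k) : ℝ × ℝ))
    have cR : Continuous fun k => (∫ x in x0..x1, (inner ℝ (β x k) (ax x (y0 + k)) : ℝ))
        + inner ℝ (b x1 y0) (α x1 k) - inner ℝ (b x0 y0) (α x0 k)
        - ∫ x in x0..x1, (inner ℝ (bx x y0) (α x k) : ℝ) :=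
      ((cR1.add (continuous_const.inner (cα' x1))).sub
        (continuous_const.inner (cα' x0))).sub cR2
    have ev : (fun k => ∫ x in x0..x1, π' x k) =ᶠ[𝓝[≠] 0]
        fun k => (∫ x in x0..x1, (inner ℝ (β x k) (ax x (y0 + k)) : ℝ))
        + inner ℝ (b x1 y0) (α x1 k) - inner ℝ (b x0 y0) (α x0 k)
        - ∫ x in x0..x1, (inner ℝ (bx x y0) (α x k) : ℝ) := by
      have h1 : ∀ᶠ k : ℝ in 𝓝[≠] 0, |k| < τ := by
        apply nhdsWithin_le_nhds
        have := Metric.ball_mem_nhds (0:ℝ) hτ
        filter_upwards [this] with k hk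
        simpa [Real.dist_eq] using hk
      filter_upwards [h1, self_mem_nhdsWithin] with k hk hk0
      exact key x1 hx1 k hk hk0
    have hlim := tendsto_nhds_unique_of_eventuallyEq
      ((cL.tendsto 0).mono_left nhdsWithin_le_nhds)
      ((cR.tendsto 0).mono_left nhdsWithin_le_nhds) ev
    simp only [α0, β0, π0, add_zero] at hlim
    rw [hlim, hQ x1 y0 hx1 (by simpa using hτ), hQ x0 y0 (by simpa using hτ) (by simpa using hτ)]
  have FTQ : ∀ x1, ∫ x in x0..x1, Qx x y0 = Q x1 y0 - Q x0 y0 := by
    intro x1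
    exact integral_eq_sub_of_hasDerivAt (fun x _ => hQx x y0) ((slr cQx y0).intervalIntegrable _ _)
  set G : ℝ → ℝ := fun x => Py x y0 - Qx x y0 - inner ℝ (bY x y0) (ax x y0)
    + inner ℝ (bx x y0) (ay x y0) with hG
  have c1 : Continuous fun x => Py x y0 := slr cPy y0
  have c2 : Continuous fun x => Qx x y0 := slr cQx y0
  have c3 : Continuous fun x => (inner ℝ (bY x y0) (ax x y0) : ℝ) := (sl cby y0).inner (sl cax y0)
  have c4 : Continuous fun x => (inner ℝ (bx x y0) (ay x y0) : ℝ) := (sl cbx y0).inner (sl cay y0)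
  have cG : Continuous G := ((c1.sub c2).sub c3).add c4
  have hz : ∀ x1, |x1 - x0| < τ → ∫ x in x0..x1, G x = 0 := by
    intro x1 hx1
    have h1 := key0 x1 hx1
    have h2 := FTQ x1
    have d1 : ∫ x in x0..x1, G x = ((∫ x in x0..x1, Py x y0) - (∫ x in x0..x1, Qx x y0)
        - ∫ x in x0..x1, (inner ℝ (bY x y0) (ax x y0) : ℝ))
        + ∫ x in x0..x1, (inner ℝ (bx x y0) (ay x y0) : ℝ) := by
      have c12 : Continuous fun x => Py x y0 - Qx x y0 := c1.sub c2
      have c123 : Continuous fun x => Py x y0 - Qx x y0 - (inner ℝ (bY x y0) (ax x y0) : ℝ) :=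
        c12.sub c3
      rw [← integral_sub (c1.intervalIntegrable _ _) (c2.intervalIntegrable _ _),
        ← integral_sub (c12.intervalIntegrable _ _) (c3.intervalIntegrable _ _),
        ← integral_add (c123.intervalIntegrable _ _) (c4.intervalIntegrable _ _)]
    rw [d1, h1, h2]
    ring
  have hd := Continuous.deriv_integral G cG x0 x0
  have hev : (fun x1 => ∫ x in x0..x1, G x) =ᶠ[𝓝 x0] fun _ => 0 := by
    filter_upwards [Metric.ball_mem_nhds x0 hτ] with x1 h1
    apply hz
    simpa [Real.dist_eq] using h1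
  rw [hev.deriv_eq, deriv_const] at hd
  have : G x0 = 0 := hd.symm
  simp only [hG] at this
  linarith

end general

end Run7.h208.Cone
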