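import Pool.Agent.Run7.h208.ConeMetric

set_option autoImplicit false

/-!
A maximum principle: a spherical disc cannot be immersed isometrically (with class `C^2`) in
3-space when its boundary goes into a small ball.
-/

namespace Run7.h208.Cone

open Set Filter Topology Function

/-- second derivative test, necessary form -/
lemma second_test {φ φ' : ℝ → ℝ} {c : ℝ} (h1 : ∀ᶠ t in 𝓝 (0:ℝ), HasDerivAt φ (φ' t) t)
    (h2 : HasDerivAt φ' c 0) (hmax : IsLocalMax φ 0) : φ' 0 = 0 ∧ c ≤ 0 := by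
  have e0 : φ' 0 = 0 := hmax.hasDerivAt_eq_zero h1.self_of_nhds
  refine ⟨e0, ?_⟩
  by_contra hc
  push Not at hc
  have hd : deriv φ =ᶠ[𝓝 0] φ' := h1.mono fun t ht => ht.deriv
  have hdd : deriv (deriv φ) 0 = c := by rw [hd.deriv_eq]; exact h2.deriv
  have hmin : IsLocalMin φ 0 := isLocalMin_of_deriv_deriv_pos (by rw [hdd]; exact hc)
    (by rw [hd.eq_of_nhds]; exact e0) h1.self_of_nhds.continuousAt
  have hconst : φ =ᶠ[𝓝 0] fun _ => φ 0 := by
    filter_upwards [hmax, hmin] with t h3 h4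
    exact le_antisymm h3 h4
  have hd0 : deriv φ =ᶠ[𝓝 0] fun _ => 0 := by
    have := hconst.deriv
    refine this.trans ?_
    filter_upwards with t
    simp
  have : deriv (deriv φ) 0 = 0 := by rw [hd0.deriv_eq]; simp
  rw [hdd] at this
  linarith

section

variable {V : Type*} [NormedAddCommGroup V] [InnerProductSpace ℝ V]

/-- the auxiliary function -/
noncomputable def psi (F : ℂ → V) (W : V) (s : ℂ) : ℝ :=
  1 / 2 * ‖F s - W‖ ^ 2 + 1 / 10 * (32 / (16 + ‖s‖ ^ 2) - 1)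

/-- squared norm along a line -/
lemma norm_line (s v : ℂ) (t : ℝ) : ‖s + t * v‖ ^ 2 =
    ‖s‖ ^ 2 + 2 * t * (s.re * v.re + s.im * v.im) + t ^ 2 * ‖v‖ ^ 2 := by
  rw [← Complex.normSq_eq_norm_sq, ← Complex.normSq_eq_norm_sq, ← Complex.normSq_eq_norm_sq,
    Complex.normSq_apply, Complex.normSq_apply, Complex.normSq_apply]
  simp
  ring

lemma line_conditions {F : ℂ → V} {s₀ : ℂ} (hF : ContDiffAt ℝ 2 F s₀) (W : V)
    (hmax : IsLocalMax (psi F W) s₀) (v : ℂ) :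
    (inner ℝ (fderiv ℝ F s₀ v) (F s₀ - W)
      = 32 / 5 * (s₀.re * v.re + s₀.im * v.im) / (16 + ‖s₀‖ ^ 2) ^ 2) ∧
    (inner ℝ (fderiv ℝ F s₀ v) (fderiv ℝ F s₀ v)
      + inner ℝ (fderiv ℝ (fderiv ℝ F) s₀ v v) (F s₀ - W)
      - 32 / 5 * ‖v‖ ^ 2 / (16 + ‖s₀‖ ^ 2) ^ 2
      + 128 / 5 * (s₀.re * v.re + s₀.im * v.im) ^ 2 / (16 + ‖s₀‖ ^ 2) ^ 3 ≤ 0) := by
  set p := s₀.re * v.re + s₀.im * v.im with hp
  have hev : ∀ᶠ s in 𝓝 s₀, ContDiffAt ℝ 2 F s := hF.eventually (by simp)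
  have hline : ∀ t : ℝ, HasDerivAt (fun t : ℝ => s₀ + t * v) v t := by
    intro t
    simpa using ((Complex.ofRealCLM.hasDerivAt (x := t)).mul_const v).const_add s₀
  have hlc : Tendsto (fun t : ℝ => s₀ + t * v) (𝓝 0) (𝓝 s₀) := by
    have := (hline 0).continuousAt
    simpa [ContinuousAt] using this
  have hev' : ∀ᶠ t : ℝ in 𝓝 0, ContDiffAt ℝ 2 F (s₀ + t * v) := hlc.eventually hev
  set q : ℝ → ℝ := fun t => 16 + ‖s₀‖ ^ 2 + 2 * t * p + t ^ 2 * ‖v‖ ^ 2 with hq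
  have hqpos : ∀ t, 0 < q t := by
    intro t
    have h := norm_line s₀ v t
    have : q t = 16 + ‖s₀ + t * v‖ ^ 2 := by rw [h, hq]; ring
    rw [this]; positivity
  have hqd : ∀ t, HasDerivAt q (2 * p + 2 * t * ‖v‖ ^ 2) t := by
    intro t
    have h1 : HasDerivAt (fun t : ℝ => 2 * t * p) (2 * p) t := by
      simpa using ((hasDerivAt_id' t).const_mul 2).mul_const p
    have h2 : HasDerivAt (fun t : ℝ => t ^ 2 * ‖v‖ ^ 2) (2 * t * ‖v‖ ^ 2) t := by
      simpa using ((hasDerivAt_pow 2 t)).mul_const (‖v‖ ^ 2)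
    exact (h1.const_add (16 + ‖s₀‖ ^ 2)).fun_add h2
  have hq0 : q 0 = 16 + ‖s₀‖ ^ 2 := by simp [hq]
  -- the function along the line
  have hφ : (fun t : ℝ => psi F W (s₀ + t * v)) =
      fun t : ℝ => 1 / 2 * inner ℝ (F (s₀ + t * v) - W) (F (s₀ + t * v) - W)
        + 1 / 10 * (32 / q t - 1) := by
    funext t
    unfold psi
    rw [real_inner_self_eq_norm_sq, norm_line s₀ v t]
    congr 3
    rw [hq]; ring
  have hφ1 : ∀ᶠ t : ℝ in 𝓝 0, HasDerivAt (fun t : ℝ => psi F W (s₀ + t * v))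
      (inner ℝ (fderiv ℝ F (s₀ + t * v) v) (F (s₀ + t * v) - W)
        - 16 / 5 * (2 * p + 2 * t * ‖v‖ ^ 2) / q t ^ 2) t := by
    filter_upwards [hev'] with t ht
    rw [hφ]
    have h1 : HasDerivAt (fun t : ℝ => F (s₀ + t * v)) (fderiv ℝ F (s₀ + t * v) v) t :=
      ((ht.differentiableAt (by norm_num)).hasFDerivAt).comp_hasDerivAt t (hline t)
    have h2 := (h1.sub_const W).inner ℝ (h1.sub_const W)
    have h3 := (hasDerivAt_const t (32:ℝ)).fun_div (hqd t) (hqpos t).ne'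
    have h4 := (h2.const_mul (1/2 : ℝ)).fun_add ((h3.sub_const 1).const_mul (1/10 : ℝ))
    refine h4.congr_deriv ?_
    rw [real_inner_comm (fderiv ℝ F (s₀ + t * v) v)]
    have := (hqpos t).ne'
    field_simp
    ring
  have hφ2 : HasDerivAt (fun t : ℝ => inner ℝ (fderiv ℝ F (s₀ + t * v) v) (F (s₀ + t * v) - W)
        - 16 / 5 * (2 * p + 2 * t * ‖v‖ ^ 2) / q t ^ 2)
      (inner ℝ (fderiv ℝ F s₀ v) (fderiv ℝ F s₀ v)
      + inner ℝ (fderiv ℝ (fderiv ℝ F) s₀ v v) (F s₀ - W)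
      - 32 / 5 * ‖v‖ ^ 2 / (16 + ‖s₀‖ ^ 2) ^ 2
      + 128 / 5 * p ^ 2 / (16 + ‖s₀‖ ^ 2) ^ 3) 0 := by
    have hs0 : s₀ + ((0:ℝ):ℂ) * v = s₀ := by simp
    have h1 : HasDerivAt (fun t : ℝ => F (s₀ + t * v)) (fderiv ℝ F s₀ v) 0 := by
      exact ((hF.differentiableAt (by norm_num)).hasFDerivAt).comp_hasDerivAt_of_eq (0:ℝ)
        (hline 0) hs0.symm
    have hFd : DifferentiableAt ℝ (fderiv ℝ F) s₀ :=
      (hF.fderiv_right (m := 1) (by norm_num)).differentiableAt (by norm_num)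
    have h2 : HasDerivAt (fun t : ℝ => fderiv ℝ F (s₀ + t * v) v)
        (fderiv ℝ (fderiv ℝ F) s₀ v v) 0 := by
      have h := hFd.hasFDerivAt.comp_hasDerivAt_of_eq (0:ℝ) (hline 0) hs0.symm
      have h' := h.clm_apply (hasDerivAt_const (0:ℝ) v)
      simpa using h'
    have h3 := h2.inner ℝ (h1.sub_const W)
    have hp1 : HasDerivAt (fun t : ℝ => 16 / 5 * (2 * p + 2 * t * ‖v‖ ^ 2))
        (32 / 5 * ‖v‖ ^ 2) 0 := by
      have h := (((hasDerivAt_id' (0:ℝ)).const_mul 2).mul_const (‖v‖ ^ 2)).const_add (2 * p)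
      have h' := h.const_mul (16 / 5 : ℝ)
      refine h'.congr_deriv ?_
      ring
    have hq2 : HasDerivAt (fun t : ℝ => q t ^ 2) (2 * q 0 * (2 * p)) 0 := by
      have h := (hqd 0).fun_pow 2
      refine h.congr_deriv ?_
      simp
    have h4 := hp1.fun_div hq2 (pow_ne_zero 2 (hqpos 0).ne')
    have h5 := h3.fun_sub h4
    refine h5.congr_deriv ?_
    rw [hs0]
    have hne := (hqpos 0).ne'
    rw [← hq0]
    field_simp
    ring
  have hmaxl : IsLocalMax (fun t : ℝ => psi F W (s₀ + t * v)) 0 := by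
    have h : ∀ᶠ t : ℝ in 𝓝 0, psi F W (s₀ + t * v) ≤ psi F W s₀ := hlc.eventually hmax
    filter_upwards [h] with t ht
    simpa using ht
  obtain ⟨r1, r2⟩ := second_test hφ1 hφ2 hmaxl
  refine ⟨?_, r2⟩
  simp only [Complex.ofReal_zero, zero_mul, add_zero, mul_zero] at r1
  rw [hq0] at r1
  have : inner ℝ (fderiv ℝ F s₀ v) (F s₀ - W) = 16 / 5 * (2 * p) / (16 + ‖s₀‖ ^ 2) ^ 2 := by
    linarith
  rw [this]
  ring

end

abbrev E3 := EuclideanSpace ℝ (Fin 3)

/-- expansion of inner products in an orthogonal frame `a, b, N` -/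
lemma exists_frame {a b : E3} {l : ℝ} (hl : 0 < l) (ha : inner ℝ a a = l ^ 2)
    (hb : inner ℝ b b = l ^ 2) (hab : inner ℝ a b = 0) :
    ∃ N : E3, ‖N‖ = 1 ∧ ∀ u w : E3, inner ℝ u w = inner ℝ u a * inner ℝ w a / l ^ 2
      + inner ℝ u b * inner ℝ w b / l ^ 2 + inner ℝ u N * inner ℝ w N := by
  let v : Fin 3 → E3 := ![l⁻¹ • a, l⁻¹ • b, 0]
  have hna : ‖l⁻¹ • a‖ = 1 := by
    have h1 : ‖a‖ = l := by
      have : ‖a‖ ^ 2 = l ^ 2 := by rw [← real_inner_self_eq_norm_sq, ha]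
      exact (pow_left_inj₀ (norm_nonneg _) hl.le (by norm_num)).1 this
    rw [norm_smul, h1, Real.norm_eq_abs, abs_of_pos (inv_pos.2 hl)]
    exact inv_mul_cancel₀ hl.ne'
  have hnb : ‖l⁻¹ • b‖ = 1 := by
    have h1 : ‖b‖ = l := by
      have : ‖b‖ ^ 2 = l ^ 2 := by rw [← real_inner_self_eq_norm_sq, hb]
      exact (pow_left_inj₀ (norm_nonneg _) hl.le (by norm_num)).1 this
    rw [norm_smul, h1, Real.norm_eq_abs, abs_of_pos (inv_pos.2 hl)]
    exact inv_mul_cancel₀ hl.ne'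
  have hv : Orthonormal ℝ (({0, 1} : Set (Fin 3)).restrict v) := by
    constructor
    · rintro ⟨i, hi⟩
      simp only [Set.mem_insert_iff, Set.mem_singleton_iff] at hi
      rcases hi with rfl | rfl
      · exact hna
      · exact hnb
    · rintro ⟨i, hi⟩ ⟨j, hj⟩ hij
      simp only [Set.mem_insert_iff, Set.mem_singleton_iff] at hi hj
      have h0 : inner ℝ (l⁻¹ • a) (l⁻¹ • b) = 0 := by
        rw [inner_smul_left, inner_smul_right, hab]; simp
      rcases hi with rfl | rfl <;> rcases hj with rfl | rfl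
      · exact absurd rfl hij
      · exact h0
      · show inner ℝ (l⁻¹ • b) (l⁻¹ • a) = 0
        rw [real_inner_comm]; exact h0
      · exact absurd rfl hij
  obtain ⟨e, he⟩ := hv.exists_orthonormalBasis_extension_of_card_eq (by simp)
  have e0 : e 0 = l⁻¹ • a := he 0 (by simp)
  have e1 : e 1 = l⁻¹ • b := he 1 (by simp)
  refine ⟨e 2, e.norm_eq_one 2, fun u w => ?_⟩
  have h := e.sum_inner_mul_inner u w
  rw [Fin.sum_univ_three, e0, e1] at h
  rw [← h, inner_smul_right, inner_smul_right, inner_smul_left, inner_smul_left,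
    real_inner_comm a w, real_inner_comm b w, real_inner_comm (e 2) w]
  simp only [conj_trivial]
  have := hl.ne'
  field_simp

/-- the final real inequality -/
lemma final_ineq {q m n11 n12 n22 K : ℝ} (hm : 0 ≤ m)
    (hQ : ∀ v1 v2 : ℝ, m * (v1 ^ 2 + v2 ^ 2)
      + q * (v1 ^ 2 * n11 + 2 * v1 * v2 * n12 + v2 ^ 2 * n22) ≤ 0)
    (hK : n11 * n22 - n12 ^ 2 = K) : m ^ 2 ≤ q ^ 2 * K := by
  set α := -(m + q * n11) with hα
  set γ := -(m + q * n22) with hγ
  have h1 : 0 ≤ α := by have := hQ 1 0; simp at this; rw [hα]; linarith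
  have h2 : 0 ≤ γ := by have := hQ 0 1; simp at this; rw [hγ]; linarith
  have hd : discrim α (-2 * (q * n12)) γ ≤ 0 := by
    apply discrim_le_zero
    intro t
    have := hQ t 1
    rw [hα, hγ]
    nlinarith
  unfold discrim at hd
  have h3 : (q * n12) ^ 2 ≤ α * γ := by nlinarith
  have h4 : q ^ 2 * K = (α + m) * (γ + m) - (q * n12) ^ 2 := by
    rw [← hK, hα, hγ]; ring
  rw [h4]
  nlinarith [mul_nonneg hm h1, mul_nonneg hm h2]

theorem not_local_max {F : ℂ → E3} {s₀ : ℂ} (hF : ContDiffAt ℝ 2 F s₀)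
    (hm : ∀ᶠ s in 𝓝 s₀, ∀ v, ‖fderiv ℝ F s v‖ = 8 / (16 + ‖s‖ ^ 2) * ‖v‖) (W : E3)
    (hW : ‖F s₀ - W‖ ≤ 5 / 8) (hmax : IsLocalMax (psi F W) s₀) : False := by
  obtain ⟨⟨haa, hbb, hab⟩, ⟨h11a, h12a, h22a⟩, ⟨h11b, h12b, h22b⟩, hsy, hg⟩ := relations hF hm
  set x := s₀.re with hx
  set y := s₀.im with hy
  set D := 16 + x ^ 2 + y ^ 2 with hD
  set a := fderiv ℝ F s₀ 1 with ha
  set b := fderiv ℝ F s₀ Complex.I with hb
  have hDs : 16 + ‖s₀‖ ^ 2 = D := by
    rw [← Complex.normSq_eq_norm_sq, Complex.normSq_apply, hD, hx, hy]; ring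
  have hDpos : 0 < D := by rw [hD]; positivity
  have hDne := hDpos.ne'
  have hl : (64 : ℝ) / D ^ 2 = (8 / D) ^ 2 := by rw [div_pow]; norm_num
  obtain ⟨N, hN, hexp⟩ := exists_frame (l := 8 / D) (by positivity) (by rw [haa, hl])
    (by rw [hbb, hl]) hab
  set P := F s₀ - W with hP
  set c := fun v w => fderiv ℝ (fderiv ℝ F) s₀ v w with hc
  have hq : (inner ℝ P N) ^ 2 ≤ ‖P‖ ^ 2 := by
    have h1 := abs_real_inner_le_norm P N
    rw [hN, mul_one] at h1
    calc (inner ℝ P N) ^ 2 = |inner ℝ P N| ^ 2 := (sq_abs _).symm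
      _ ≤ ‖P‖ ^ 2 := by gcongr
  set q := inner ℝ P N with hqdef
  set n11 := inner ℝ (c 1 1) N with hn11
  set n12 := inner ℝ (c 1 Complex.I) N with hn12
  set n22 := inner ℝ (c Complex.I Complex.I) N with hn22
  -- first order conditions
  have f1 : inner ℝ a P = 32 / 5 * x / D ^ 2 := by
    have := (line_conditions hF W hmax 1).1
    rw [hDs] at this
    simpa using this
  have f2 : inner ℝ b P = 32 / 5 * y / D ^ 2 := by
    have := (line_conditions hF W hmax Complex.I).1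
    rw [hDs] at this
    simpa using this
  -- curvature
  have hK : n11 * n22 - n12 ^ 2 = 4096 / D ^ 4 := by
    have g1 := hexp (c 1 Complex.I) (c 1 Complex.I)
    have g2 := hexp (c 1 1) (c Complex.I Complex.I)
    rw [g1, g2, h12a, h12b, h11a, h22a, h11b, h22b] at hg
    have hr : x ^ 2 + y ^ 2 = D - 16 := by rw [hD]; ring
    rw [← hn11, ← hn12, ← hn22] at hg
    have hy2 : y ^ 2 = D - 16 - x ^ 2 := by linarith
    have h3 : (-128 * y / D ^ 3 * (-128 * y / D ^ 3) / (8 / D) ^ 2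
        + -128 * x / D ^ 3 * (-128 * x / D ^ 3) / (8 / D) ^ 2) = 256 * (D - 16) / D ^ 4 := by
      rw [← hr]; field_simp; ring
    have h4 : (-128 * x / D ^ 3 * (128 * x / D ^ 3) / (8 / D) ^ 2
        + 128 * y / D ^ 3 * (-128 * y / D ^ 3) / (8 / D) ^ 2) = -(256 * (D - 16) / D ^ 4) := by
      rw [← hr]; field_simp; ring
    rw [h3, h4, hr] at hg
    have h5 : -256 / D ^ 3 + 768 * (D - 16) / D ^ 4 - 512 * (D - 16) / D ^ 4
        = -(4096 / D ^ 4) := by
      field_simp; ring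
    have h6 : 512 * (D - 16) / D ^ 4 = 2 * (256 * (D - 16) / D ^ 4) := by ring
    linarith [h5, h6, hg]
  -- second order condition
  have hQ : ∀ v1 v2 : ℝ, (64 / D ^ 2 * (1 - 1 / 10 * (32 / D - 1))) * (v1 ^ 2 + v2 ^ 2)
      + q * (v1 ^ 2 * n11 + 2 * v1 * v2 * n12 + v2 ^ 2 * n22) ≤ 0 := by
    intro v1 v2
    have h := (line_conditions hF W hmax (v1 + v2 * Complex.I)).2
    rw [hDs] at h
    have hn : ‖(v1 : ℂ) + v2 * Complex.I‖ ^ 2 = v1 ^ 2 + v2 ^ 2 := by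
      rw [← Complex.normSq_eq_norm_sq, Complex.normSq_apply]; simp; ring
    have hre : ((v1 : ℂ) + v2 * Complex.I).re = v1 := by simp
    have him : ((v1 : ℂ) + v2 * Complex.I).im = v2 := by simp
    rw [hn, hre, him] at h
    have hv : (v1 : ℂ) + v2 * Complex.I = v1 • (1 : ℂ) + v2 • Complex.I := by simp
    have hL : fderiv ℝ F s₀ (v1 + v2 * Complex.I) = v1 • a + v2 • b := by
      rw [hv, map_add, map_smul, map_smul]
    have hLL : fderiv ℝ (fderiv ℝ F) s₀ (v1 + v2 * Complex.I) (v1 + v2 * Complex.I)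
        = (v1 ^ 2) • c 1 1 + (2 * v1 * v2) • c 1 Complex.I + (v2 ^ 2) • c Complex.I Complex.I := by
      rw [hv]
      simp only [map_add, map_smul, ContinuousLinearMap.add_apply, ContinuousLinearMap.smul_apply]
      show v1 • (v1 • c 1 1 + v2 • c Complex.I 1) + v2 • (v1 • c 1 Complex.I
        + v2 • c Complex.I Complex.I) = _
      have : c Complex.I 1 = c 1 Complex.I := hsy
      rw [this]
      module
    rw [hLL, hL] at h
    have hin : inner ℝ (v1 • a + v2 • b) (v1 • a + v2 • b) = 64 / D ^ 2 * (v1 ^ 2 + v2 ^ 2) := by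
      rw [inner_add_left, inner_add_right, inner_add_right, inner_smul_left, inner_smul_left,
        inner_smul_left, inner_smul_left, inner_smul_right, inner_smul_right, inner_smul_right,
        inner_smul_right, real_inner_comm a b, haa, hbb, hab]
      simp only [conj_trivial]
      ring
    have hcP : inner ℝ ((v1 ^ 2) • c 1 1 + (2 * v1 * v2) • c 1 Complex.I
        + (v2 ^ 2) • c Complex.I Complex.I) P = v1 ^ 2 * inner ℝ (c 1 1) P
        + 2 * v1 * v2 * inner ℝ (c 1 Complex.I) P + v2 ^ 2 * inner ℝ (c Complex.I Complex.I) P := by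
      rw [inner_add_left, inner_add_left, inner_smul_left, inner_smul_left, inner_smul_left]
      simp only [conj_trivial]
    rw [hin, hcP, hexp (c 1 1) P, hexp (c 1 Complex.I) P, hexp (c Complex.I Complex.I) P,
      real_inner_comm a P, real_inner_comm b P, f1, f2, h11a, h12a, h22a, h11b, h12b, h22b] at h
    rw [← hn11, ← hn12, ← hn22, ← hqdef] at h
    have hr : x ^ 2 + y ^ 2 = D - 16 := by rw [hD]; ring
    have key : (64 / D ^ 2 * (1 - 1 / 10 * (32 / D - 1))) * (v1 ^ 2 + v2 ^ 2)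
      + q * (v1 ^ 2 * n11 + 2 * v1 * v2 * n12 + v2 ^ 2 * n22) =
      64 / D ^ 2 * (v1 ^ 2 + v2 ^ 2) +
            (v1 ^ 2 * (-128 * x / D ^ 3 * (32 / 5 * x / D ^ 2) / (8 / D) ^ 2 +
              128 * y / D ^ 3 * (32 / 5 * y / D ^ 2) / (8 / D) ^ 2 + n11 * q) +
              2 * v1 * v2 * (-128 * y / D ^ 3 * (32 / 5 * x / D ^ 2) / (8 / D) ^ 2 +
                -128 * x / D ^ 3 * (32 / 5 * y / D ^ 2) / (8 / D) ^ 2 + n12 * q) +
            v2 ^ 2 * (128 * x / D ^ 3 * (32 / 5 * x / D ^ 2) / (8 / D) ^ 2 +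
              -128 * y / D ^ 3 * (32 / 5 * y / D ^ 2) / (8 / D) ^ 2 + n22 * q)) -
          32 / 5 * (v1 ^ 2 + v2 ^ 2) / D ^ 2 +
        128 / 5 * (x * v1 + y * v2) ^ 2 / D ^ 3 := by
      have hx2 : (16 : ℝ) = D - x ^ 2 - y ^ 2 := by rw [hD]; ring
      have h32 : (32 : ℝ) / D - 1 = (D - 2 * x ^ 2 - 2 * y ^ 2) / D := by
        rw [show (32 : ℝ) = 2 * (D - x ^ 2 - y ^ 2) by linarith]; field_simp; ring
      rw [h32]
      field_simp
      ring
    rw [key]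
    exact h
  have hηle : 32 / D - 1 ≤ 1 := by
    have : (16 : ℝ) ≤ D := by rw [hD]; nlinarith [sq_nonneg x, sq_nonneg y]
    rw [sub_le_iff_le_add, div_le_iff₀ hDpos]; linarith
  have hmpos : 9 / 10 ≤ 1 - 1 / 10 * (32 / D - 1) := by linarith
  have hfin := final_ineq (by positivity) hQ hK
  have h1 : (64 / D ^ 2 * (9 / 10)) ^ 2 ≤ (64 / D ^ 2 * (1 - 1 / 10 * (32 / D - 1))) ^ 2 := by
    gcongr
  have h2 : (64 / D ^ 2 * (9 / 10)) ^ 2 = 4096 / D ^ 4 * (81 / 100) := by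
    field_simp; norm_num
  have h3 : 4096 / D ^ 4 * (81 / 100) ≤ q ^ 2 * (4096 / D ^ 4) := by linarith
  have h4 : 0 < 4096 / D ^ 4 := by positivity
  have h5 : (81 : ℝ) / 100 ≤ q ^ 2 := by
    by_contra hcon
    push Not at hcon
    nlinarith
  have h6 : ‖P‖ ^ 2 ≤ (5 / 8) ^ 2 := by gcongr
  norm_num at h6
  linarith

end Run7.h208.Cone
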