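import Pool.Agent.Run7.h208.ConeGauss

set_option autoImplicit false

/-!
First and second order relations for a twice continuously differentiable isometric immersion of a
spherical disc (in the conformal coordinate in which the metric is `8 |ds| / (16 + |s|^2)`).
-/

namespace Run7.h208.Cone

open Set Filter Topology Function

section ext

variable {V : Type*} [NormedAddCommGroup V] [NormedSpace ℝ V]

lemma exists_extension {F : ℂ → V} {s₀ : ℂ} (hF : ContDiffAt ℝ 2 F s₀) :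
    ∃ G : ℂ → V, ContDiff ℝ 2 G ∧ G =ᶠ[𝓝 s₀] F := by
  have h1 : ∀ᶠ x in 𝓝 s₀, ContDiffAt ℝ 2 F x := hF.eventually (by simp)
  obtain ⟨r, hr, hball⟩ := Metric.eventually_nhds_iff_ball.1 h1
  let φ : ContDiffBump s₀ := ⟨r / 4, r / 2, by positivity, by linarith⟩
  refine ⟨fun x => φ x • F x, ?_, ?_⟩
  · rw [contDiff_iff_contDiffAt]
    intro x
    by_cases hx1 : x ∈ tsupport φ
    · rw [φ.tsupport_eq] at hx1
      have hx2 : x ∈ Metric.ball s₀ r := by
        rw [Metric.mem_closedBall] at hx1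
        rw [Metric.mem_ball]
        refine lt_of_le_of_lt hx1 ?_
        show r / 2 < r
        linarith
      exact φ.contDiffAt.smul (hball x hx2)
    · have hev : (fun x => φ x • F x) =ᶠ[𝓝 x] fun _ => 0 := by
        filter_upwards [(isClosed_tsupport φ).isOpen_compl.mem_nhds hx1] with y hy
        rw [image_eq_zero_of_notMem_tsupport hy, zero_smul]
      exact contDiffAt_const.congr_of_eventuallyEq hev
  · filter_upwards [φ.eventuallyEq_one] with x hx
    rw [hx]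
    simp

end ext

section coords

variable {V : Type*} [NormedAddCommGroup V] [NormedSpace ℝ V]

/-- the point with coordinates `x, y` -/
noncomputable def pt (x y : ℝ) : ℂ := (x : ℂ) + (y : ℂ) * Complex.I

lemma pt_re (x y : ℝ) : (pt x y).re = x := by simp [pt]
lemma pt_im (x y : ℝ) : (pt x y).im = y := by simp [pt]

lemma hasDerivAt_pt_x (x y : ℝ) : HasDerivAt (fun x => pt x y) 1 x := by
  unfold pt
  simpa using (Complex.ofRealCLM.hasDerivAt (x := x)).add_const ((y : ℂ) * Complex.I)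

lemma hasDerivAt_pt_y (x y : ℝ) : HasDerivAt (fun y => pt x y) Complex.I y := by
  unfold pt
  have h := ((Complex.ofRealCLM.hasDerivAt (x := y)).mul_const Complex.I).const_add (x : ℂ)
  simpa using h

lemma continuous_pt : Continuous fun p : ℝ × ℝ => pt p.1 p.2 := by
  unfold pt
  fun_prop

lemma pt_eta (s : ℂ) : pt s.re s.im = s := by
  apply Complex.ext <;> simp [pt]

lemma hasDerivAt_comp_x {G : ℂ → V} (hG : Differentiable ℝ G) (x y : ℝ) :
    HasDerivAt (fun x => G (pt x y)) (fderiv ℝ G (pt x y) 1) x :=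
  ((hG (pt x y)).hasFDerivAt).comp_hasDerivAt x (hasDerivAt_pt_x x y)

lemma hasDerivAt_comp_y {G : ℂ → V} (hG : Differentiable ℝ G) (x y : ℝ) :
    HasDerivAt (fun y => G (pt x y)) (fderiv ℝ G (pt x y) Complex.I) y :=
  ((hG (pt x y)).hasFDerivAt).comp_hasDerivAt y (hasDerivAt_pt_y x y)

end coords

/-- the squared conformal factor -/
noncomputable def Ef (x y : ℝ) : ℝ := 64 / (16 + x ^ 2 + y ^ 2) ^ 2

lemma Dpos (x y : ℝ) : 0 < 16 + x ^ 2 + y ^ 2 := by positivity

lemma Ef_x (x y : ℝ) : HasDerivAt (fun x => Ef x y) (-256 * x / (16 + x ^ 2 + y ^ 2) ^ 3) x := by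
  have hD := (Dpos x y).ne'
  have h1 : HasDerivAt (fun x : ℝ => (16 + x ^ 2 + y ^ 2) ^ 2)
      (2 * (16 + x ^ 2 + y ^ 2) * (2 * x)) x := by
    have h2 : HasDerivAt (fun x : ℝ => 16 + x ^ 2 + y ^ 2) (2 * x) x := by
      simpa using ((hasDerivAt_pow 2 x).const_add 16).add_const (y ^ 2)
    have := h2.fun_pow 2
    simpa using this
  have h3 := (hasDerivAt_const x (64 : ℝ)).fun_div h1 (by positivity)
  unfold Ef
  refine h3.congr_deriv ?_
  field_simp
  ring

lemma Ef_y (x y : ℝ) : HasDerivAt (fun y => Ef x y) (-256 * y / (16 + x ^ 2 + y ^ 2) ^ 3) y := by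
  have h := Ef_x y x
  have e : (fun y => Ef x y) = fun y => Ef y x := by
    funext y; unfold Ef; ring
  rw [e]
  convert h using 2
  ring

noncomputable def Pf (x y : ℝ) : ℝ := 128 * y / (16 + x ^ 2 + y ^ 2) ^ 3
noncomputable def Qf (x y : ℝ) : ℝ := -128 * x / (16 + x ^ 2 + y ^ 2) ^ 3

lemma Pf_y (x y : ℝ) : HasDerivAt (fun y => Pf x y)
    (128 / (16 + x ^ 2 + y ^ 2) ^ 3 - 768 * y ^ 2 / (16 + x ^ 2 + y ^ 2) ^ 4) y := by
  have hD := (Dpos x y).ne'
  have h2 : HasDerivAt (fun y : ℝ => 16 + x ^ 2 + y ^ 2) (2 * y) y := by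
    simpa using (hasDerivAt_pow 2 y).const_add (16 + x ^ 2)
  have h1 : HasDerivAt (fun y : ℝ => (16 + x ^ 2 + y ^ 2) ^ 3)
      (3 * (16 + x ^ 2 + y ^ 2) ^ 2 * (2 * y)) y := by
    have := h2.fun_pow 3
    simpa using this
  have h3 := ((hasDerivAt_id' y).const_mul (128 : ℝ)).fun_div h1 (by positivity)
  unfold Pf
  refine h3.congr_deriv ?_
  field_simp
  ring

lemma Qf_x (x y : ℝ) : HasDerivAt (fun x => Qf x y)
    (-128 / (16 + x ^ 2 + y ^ 2) ^ 3 + 768 * x ^ 2 / (16 + x ^ 2 + y ^ 2) ^ 4) x := by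
  have hD := (Dpos x y).ne'
  have h2 : HasDerivAt (fun x : ℝ => 16 + x ^ 2 + y ^ 2) (2 * x) x := by
    simpa using ((hasDerivAt_pow 2 x).const_add 16).add_const (y ^ 2)
  have h1 : HasDerivAt (fun x : ℝ => (16 + x ^ 2 + y ^ 2) ^ 3)
      (3 * (16 + x ^ 2 + y ^ 2) ^ 2 * (2 * x)) x := by
    have := h2.fun_pow 3
    simpa using this
  have h3 := ((hasDerivAt_id' x).const_mul (-128 : ℝ)).fun_div h1 (by positivity)
  unfold Qf
  refine h3.congr_deriv ?_
  field_simp
  ring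

section rel

variable {V : Type*} [NormedAddCommGroup V] [InnerProductSpace ℝ V] [CompleteSpace V]

omit [CompleteSpace V] in
lemma inner_of_conformal {L : ℂ →L[ℝ] V} {l : ℝ} (h : ∀ v, ‖L v‖ = l * ‖v‖) :
    inner ℝ (L 1) (L 1) = l ^ 2 ∧ inner ℝ (L Complex.I) (L Complex.I) = l ^ 2 ∧
      inner ℝ (L 1) (L Complex.I) = 0 := by
  have h1 := h 1
  have h2 := h Complex.I
  have h3 := h (1 + Complex.I)
  rw [norm_one, mul_one] at h1
  rw [Complex.norm_I, mul_one] at h2
  have e1 : inner ℝ (L 1) (L 1) = l ^ 2 := by rw [real_inner_self_eq_norm_sq, h1]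
  have e2 : inner ℝ (L Complex.I) (L Complex.I) = l ^ 2 := by
    rw [real_inner_self_eq_norm_sq, h2]
  refine ⟨e1, e2, ?_⟩
  have e3 : ‖L (1 + Complex.I)‖ ^ 2 = 2 * l ^ 2 := by
    rw [h3, mul_pow]
    have : ‖(1 : ℂ) + Complex.I‖ ^ 2 = 2 := by
      rw [← Complex.normSq_eq_norm_sq]
      simp [Complex.normSq_apply]
      norm_num
    rw [this]; ring
  rw [map_add, norm_add_sq_real, ← real_inner_self_eq_norm_sq, ← real_inner_self_eq_norm_sq, e1,
    e2] at e3
  linarith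

/-- All relations between the first and second derivatives at a point. -/
theorem relations {F : ℂ → V} {s₀ : ℂ} (hF : ContDiffAt ℝ 2 F s₀)
    (hm : ∀ᶠ s in 𝓝 s₀, ∀ v, ‖fderiv ℝ F s v‖ = 8 / (16 + ‖s‖ ^ 2) * ‖v‖) :
    let x := s₀.re
    let y := s₀.im
    let D := 16 + x ^ 2 + y ^ 2
    let a := fderiv ℝ F s₀ 1
    let b := fderiv ℝ F s₀ Complex.I
    let c := fun v w => fderiv ℝ (fderiv ℝ F) s₀ v w
    (inner ℝ a a = 64 / D ^ 2 ∧ inner ℝ b b = 64 / D ^ 2 ∧ inner ℝ a b = 0) ∧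
    (inner ℝ (c 1 1) a = -128 * x / D ^ 3 ∧ inner ℝ (c 1 Complex.I) a = -128 * y / D ^ 3 ∧
      inner ℝ (c Complex.I Complex.I) a = 128 * x / D ^ 3) ∧
    (inner ℝ (c 1 1) b = 128 * y / D ^ 3 ∧ inner ℝ (c 1 Complex.I) b = -128 * x / D ^ 3 ∧
      inner ℝ (c Complex.I Complex.I) b = -128 * y / D ^ 3) ∧
    (c Complex.I 1 = c 1 Complex.I) ∧
    inner ℝ (c 1 Complex.I) (c 1 Complex.I) - inner ℝ (c 1 1) (c Complex.I Complex.I)
      = -256 / D ^ 3 + 768 * (x ^ 2 + y ^ 2) / D ^ 4 := by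
  obtain ⟨G, hG, hGF⟩ := exists_extension hF
  have hd1 : fderiv ℝ G =ᶠ[𝓝 s₀] fderiv ℝ F := hGF.fderiv
  have hd2 : fderiv ℝ (fderiv ℝ G) s₀ = fderiv ℝ (fderiv ℝ F) s₀ := hd1.fderiv_eq
  have hd1' : fderiv ℝ G s₀ = fderiv ℝ F s₀ := hd1.eq_of_nhds
  have hmG : ∀ᶠ s in 𝓝 s₀, ∀ v, ‖fderiv ℝ G s v‖ = 8 / (16 + ‖s‖ ^ 2) * ‖v‖ := by
    filter_upwards [hm, hd1] with s h1 h2 v
    rw [h2, h1]
  intro x y D a b c
  have ha : a = fderiv ℝ G s₀ 1 := by rw [hd1']
  have hb : b = fderiv ℝ G s₀ Complex.I := by rw [hd1']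
  have hc : ∀ v w, c v w = fderiv ℝ (fderiv ℝ G) s₀ v w := by intro v w; rw [hd2]
  -- global objects
  have hG1 : Differentiable ℝ G := hG.differentiable (by norm_num)
  have hG1' : ContDiff ℝ 1 (fderiv ℝ G) := hG.fderiv_right (by norm_num)
  have hG2 : Differentiable ℝ (fderiv ℝ G) := hG1'.differentiable (by norm_num)
  have hG2c : Continuous (fderiv ℝ (fderiv ℝ G)) := hG1'.continuous_fderiv (by norm_num)
  let A : ℝ → ℝ → V := fun x y => fderiv ℝ G (pt x y) 1
  let B : ℝ → ℝ → V := fun x y => fderiv ℝ G (pt x y) Complex.I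
  let C : ℂ → ℂ → ℝ → ℝ → V := fun v w x y => fderiv ℝ (fderiv ℝ G) (pt x y) v w
  have hAx : ∀ w, ∀ x y, HasDerivAt (fun x => fderiv ℝ G (pt x y) w) (C 1 w x y) x := by
    intro w x y
    have h := (hasDerivAt_comp_x hG2 x y).clm_apply (hasDerivAt_const x w)
    simpa using h
  have hAy : ∀ w, ∀ x y, HasDerivAt (fun y => fderiv ℝ G (pt x y) w) (C Complex.I w x y) y := by
    intro w x y
    have h := (hasDerivAt_comp_y hG2 x y).clm_apply (hasDerivAt_const y w)
    simpa using h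
  have hCc : ∀ v w, Continuous (uncurry (C v w)) := by
    intro v w
    have h1 : Continuous fun p : ℝ × ℝ => fderiv ℝ (fderiv ℝ G) (pt p.1 p.2) :=
      hG2c.comp continuous_pt
    exact (h1.clm_apply continuous_const).clm_apply continuous_const
  have hsymm : ∀ v w x y, C v w x y = C w v x y := by
    intro v w x y
    have h := (hG.contDiffAt (x := pt x y)).isSymmSndFDerivAt (by simp)
    exact h v w
  -- the metric relations near the point
  obtain ⟨ρ, hρ, hball⟩ := Metric.eventually_nhds_iff_ball.1 hmG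
  set τ := ρ / 2 with hτ
  have hτ0 : 0 < τ := by positivity
  have hin : ∀ x' y', |x' - x| < τ → |y' - y| < τ → pt x' y' ∈ Metric.ball s₀ ρ := by
    intro x' y' h1 h2
    rw [Metric.mem_ball, dist_eq_norm]
    have h3 : ‖pt x' y' - s₀‖ ≤ |(pt x' y' - s₀).re| + |(pt x' y' - s₀).im| :=
      Complex.norm_le_abs_re_add_abs_im _
    rw [Complex.sub_re, Complex.sub_im, pt_re, pt_im] at h3
    have : |x' - s₀.re| < τ := h1
    have : |y' - s₀.im| < τ := h2
    linarith
  have hmet : ∀ x' y', |x' - x| < τ → |y' - y| < τ →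
      inner ℝ (A x' y') (A x' y') = Ef x' y' ∧ inner ℝ (B x' y') (B x' y') = Ef x' y' ∧
      inner ℝ (A x' y') (B x' y') = 0 := by
    intro x' y' h1 h2
    have h3 := inner_of_conformal (hball _ (hin x' y' h1 h2))
    have h4 : (8 / (16 + ‖pt x' y'‖ ^ 2)) ^ 2 = Ef x' y' := by
      rw [← Complex.normSq_eq_norm_sq, Complex.normSq_apply, pt_re, pt_im]
      unfold Ef
      rw [div_pow]
      congr 1
      · norm_num
      · ring
    rw [h4] at h3
    exact h3
  -- neighbourhood filters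
  have evx : ∀ x' y', |x' - x| < τ → |y' - y| < τ → ∀ᶠ t in 𝓝 x', |t - x| < τ := by
    intro x' y' h1 _
    have : ContinuousAt (fun t : ℝ => |t - x|) x' := by fun_prop
    exact this.eventually_lt continuousAt_const h1
  have evy : ∀ x' y', |x' - x| < τ → |y' - y| < τ → ∀ᶠ t in 𝓝 y', |t - y| < τ := by
    intro x' y' _ h2
    have : ContinuousAt (fun t : ℝ => |t - y|) y' := by fun_prop
    exact this.eventually_lt continuousAt_const h2
  -- first derivatives of the metric relations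
  have rel1 : ∀ x' y', |x' - x| < τ → |y' - y| < τ →
      2 * inner ℝ (C 1 1 x' y') (A x' y') = -256 * x' / (16 + x' ^ 2 + y' ^ 2) ^ 3 := by
    intro x' y' h1 h2
    have d1 := (hAx 1 x' y').inner ℝ (hAx 1 x' y')
    have d2 : HasDerivAt (fun t => inner ℝ (A t y') (A t y'))
        (-256 * x' / (16 + x' ^ 2 + y' ^ 2) ^ 3) x' := by
      refine (Ef_x x' y').congr_of_eventuallyEq ?_
      filter_upwards [evx x' y' h1 h2] with t ht
      exact (hmet t y' ht h2).1
    have := d1.unique d2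
    rw [← this, real_inner_comm (C 1 1 x' y')]
    ring
  have rel2 : ∀ x' y', |x' - x| < τ → |y' - y| < τ →
      2 * inner ℝ (C Complex.I 1 x' y') (A x' y') = -256 * y' / (16 + x' ^ 2 + y' ^ 2) ^ 3 := by
    intro x' y' h1 h2
    have d1 := (hAy 1 x' y').inner ℝ (hAy 1 x' y')
    have d2 : HasDerivAt (fun t => inner ℝ (A x' t) (A x' t))
        (-256 * y' / (16 + x' ^ 2 + y' ^ 2) ^ 3) y' := by
      refine (Ef_y x' y').congr_of_eventuallyEq ?_
      filter_upwards [evy x' y' h1 h2] with t ht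
      exact (hmet x' t h1 ht).1
    have := d1.unique d2
    rw [← this, real_inner_comm (C Complex.I 1 x' y')]
    ring
  have rel3 : ∀ x' y', |x' - x| < τ → |y' - y| < τ →
      2 * inner ℝ (C 1 Complex.I x' y') (B x' y') = -256 * x' / (16 + x' ^ 2 + y' ^ 2) ^ 3 := by
    intro x' y' h1 h2
    have d1 := (hAx Complex.I x' y').inner ℝ (hAx Complex.I x' y')
    have d2 : HasDerivAt (fun t => inner ℝ (B t y') (B t y'))
        (-256 * x' / (16 + x' ^ 2 + y' ^ 2) ^ 3) x' := by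
      refine (Ef_x x' y').congr_of_eventuallyEq ?_
      filter_upwards [evx x' y' h1 h2] with t ht
      exact (hmet t y' ht h2).2.1
    have := d1.unique d2
    rw [← this, real_inner_comm (C 1 Complex.I x' y')]
    ring
  have rel4 : ∀ x' y', |x' - x| < τ → |y' - y| < τ →
      2 * inner ℝ (C Complex.I Complex.I x' y') (B x' y')
        = -256 * y' / (16 + x' ^ 2 + y' ^ 2) ^ 3 := by
    intro x' y' h1 h2
    have d1 := (hAy Complex.I x' y').inner ℝ (hAy Complex.I x' y')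
    have d2 : HasDerivAt (fun t => inner ℝ (B x' t) (B x' t))
        (-256 * y' / (16 + x' ^ 2 + y' ^ 2) ^ 3) y' := by
      refine (Ef_y x' y').congr_of_eventuallyEq ?_
      filter_upwards [evy x' y' h1 h2] with t ht
      exact (hmet x' t h1 ht).2.1
    have := d1.unique d2
    rw [← this, real_inner_comm (C Complex.I Complex.I x' y')]
    ring
  have rel5 : ∀ x' y', |x' - x| < τ → |y' - y| < τ →
      inner ℝ (A x' y') (C 1 Complex.I x' y') + inner ℝ (C 1 1 x' y') (B x' y') = 0 := by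
    intro x' y' h1 h2
    have d1 := (hAx 1 x' y').inner ℝ (hAx Complex.I x' y')
    have d2 : HasDerivAt (fun t => inner ℝ (A t y') (B t y')) 0 x' := by
      refine (hasDerivAt_const x' (0:ℝ)).congr_of_eventuallyEq ?_
      filter_upwards [evx x' y' h1 h2] with t ht
      exact (hmet t y' ht h2).2.2
    exact d1.unique d2
  have rel6 : ∀ x' y', |x' - x| < τ → |y' - y| < τ →
      inner ℝ (A x' y') (C Complex.I Complex.I x' y') + inner ℝ (C Complex.I 1 x' y') (B x' y')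
        = 0 := by
    intro x' y' h1 h2
    have d1 := (hAy 1 x' y').inner ℝ (hAy Complex.I x' y')
    have d2 : HasDerivAt (fun t => inner ℝ (A x' t) (B x' t)) 0 y' := by
      refine (hasDerivAt_const y' (0:ℝ)).congr_of_eventuallyEq ?_
      filter_upwards [evy x' y' h1 h2] with t ht
      exact (hmet x' t h1 ht).2.2
    exact d1.unique d2
  -- the two coefficients
  have hP : ∀ x' y', |x' - x| < τ → |y' - y| < τ →
      inner ℝ (B x' y') (C 1 1 x' y') = Pf x' y' := by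
    intro x' y' h1 h2
    have r2 := rel2 x' y' h1 h2
    have r5 := rel5 x' y' h1 h2
    rw [hsymm Complex.I 1] at r2
    rw [real_inner_comm] at r2
    rw [real_inner_comm]
    unfold Pf
    have : 128 * y' / (16 + x' ^ 2 + y' ^ 2) ^ 3
        = -(1 / 2) * (-256 * y' / (16 + x' ^ 2 + y' ^ 2) ^ 3) := by ring
    rw [this, ← r2]
    linarith
  have hQ : ∀ x' y', |x' - x| < τ → |y' - y| < τ →
      inner ℝ (B x' y') (C Complex.I 1 x' y') = Qf x' y' := by
    intro x' y' h1 h2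
    have r3 := rel3 x' y' h1 h2
    rw [hsymm Complex.I 1, real_inner_comm]
    unfold Qf
    have : -128 * x' / (16 + x' ^ 2 + y' ^ 2) ^ 3
        = (1 / 2) * (-256 * x' / (16 + x' ^ 2 + y' ^ 2) ^ 3) := by ring
    rw [this, ← r3]
    ring
  have cP : Continuous (uncurry fun x y : ℝ => 128 / (16 + x ^ 2 + y ^ 2) ^ 3
      - 768 * y ^ 2 / (16 + x ^ 2 + y ^ 2) ^ 4) := by
    have : Continuous fun p : ℝ × ℝ => 128 / (16 + p.1 ^ 2 + p.2 ^ 2) ^ 3
      - 768 * p.2 ^ 2 / (16 + p.1 ^ 2 + p.2 ^ 2) ^ 4 := by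
      have h0 : ∀ p : ℝ × ℝ, 16 + p.1 ^ 2 + p.2 ^ 2 ≠ 0 := fun p => (Dpos _ _).ne'
      refine Continuous.sub ?_ ?_
      · exact continuous_const.div (by fun_prop) fun p => pow_ne_zero _ (h0 p)
      · exact Continuous.div (by fun_prop) (by fun_prop) fun p => pow_ne_zero _ (h0 p)
    exact this
  have cQ : Continuous (uncurry fun x y : ℝ => -128 / (16 + x ^ 2 + y ^ 2) ^ 3
      + 768 * x ^ 2 / (16 + x ^ 2 + y ^ 2) ^ 4) := by
    have : Continuous fun p : ℝ × ℝ => -128 / (16 + p.1 ^ 2 + p.2 ^ 2) ^ 3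
      + 768 * p.1 ^ 2 / (16 + p.1 ^ 2 + p.2 ^ 2) ^ 4 := by
      have h0 : ∀ p : ℝ × ℝ, 16 + p.1 ^ 2 + p.2 ^ 2 ≠ 0 := fun p => (Dpos _ _).ne'
      refine Continuous.add ?_ ?_
      · exact continuous_const.div (by fun_prop) fun p => pow_ne_zero _ (h0 p)
      · exact Continuous.div (by fun_prop) (by fun_prop) fun p => pow_ne_zero _ (h0 p)
    exact this
  have gauss := weak_exact (a := A) (b := B) (ax := C 1 1) (ay := C Complex.I 1)
    (bx := C 1 Complex.I) (bY := C Complex.I Complex.I)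
    (hAx 1) (hAy 1) (hAx Complex.I) (hAy Complex.I) (hCc _ _) (hCc _ _) (hCc _ _) (hCc _ _)
    (P := Pf) (Q := Qf) Pf_y cP Qf_x cQ (x0 := x) (y0 := y) hτ0 hP hQ
  have z1 : |x - x| < τ := by simpa using hτ0
  have z2 : |y - y| < τ := by simpa using hτ0
  have hA0 : A x y = a := by
    show fderiv ℝ G (pt s₀.re s₀.im) 1 = a
    rw [pt_eta, ha]
  have hB0 : B x y = b := by
    show fderiv ℝ G (pt s₀.re s₀.im) Complex.I = b
    rw [pt_eta, hb]
  have hC0 : ∀ v w, C v w x y = c v w := by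
    intro v w
    show fderiv ℝ (fderiv ℝ G) (pt s₀.re s₀.im) v w = c v w
    rw [pt_eta, hc]
  have m0 := hmet x y z1 z2
  have r1 := rel1 x y z1 z2
  have r2 := rel2 x y z1 z2
  have r3 := rel3 x y z1 z2
  have r4 := rel4 x y z1 z2
  have r5 := rel5 x y z1 z2
  have r6 := rel6 x y z1 z2
  have sy : c Complex.I 1 = c 1 Complex.I := by rw [← hC0, ← hC0]; exact hsymm _ _ _ _
  simp only [hA0, hB0, hC0, sy] at m0 r1 r2 r3 r4 r5 r6 gauss
  unfold Ef at m0
  have e1 : -256 * x / (16 + x ^ 2 + y ^ 2) ^ 3 = 2 * (-128 * x / (16 + x ^ 2 + y ^ 2) ^ 3) := by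
    ring
  have e2 : -256 * y / (16 + x ^ 2 + y ^ 2) ^ 3 = 2 * (-128 * y / (16 + x ^ 2 + y ^ 2) ^ 3) := by
    ring
  have e3 : 128 * y / (16 + x ^ 2 + y ^ 2) ^ 3 = - (-128 * y / (16 + x ^ 2 + y ^ 2) ^ 3) := by
    ring
  have e4 : 128 * x / (16 + x ^ 2 + y ^ 2) ^ 3 = - (-128 * x / (16 + x ^ 2 + y ^ 2) ^ 3) := by
    ring
  rw [e1] at r1 r3
  rw [e2] at r2 r4
  refine ⟨⟨m0.1, m0.2.1, m0.2.2⟩, ⟨?_, ?_, ?_⟩, ⟨?_, ?_, ?_⟩, sy, ?_⟩
  · linarith
  · linarith
  · show inner ℝ (c Complex.I Complex.I) a = 128 * x / (16 + x ^ 2 + y ^ 2) ^ 3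
    rw [e4, real_inner_comm]
    linarith
  · show inner ℝ (c 1 1) b = 128 * y / (16 + x ^ 2 + y ^ 2) ^ 3
    rw [e3]
    rw [real_inner_comm] at r5
    linarith
  · linarith
  · linarith
  · rw [real_inner_comm (c Complex.I Complex.I) (c 1 1), ← gauss]
    show _ = -256 / (16 + x ^ 2 + y ^ 2) ^ 3 + 768 * (x ^ 2 + y ^ 2) / (16 + x ^ 2 + y ^ 2) ^ 4
    ring

end rel

end Run7.h208.Cone
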