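import Pool.Agent.Run7.h208.ConeU2
import Pool.Agent.Run7.h208.ConeDisc

set_option autoImplicit false

/-!
The regular disc of the metric around the point at infinity.
-/

namespace Run7.h208.Cone

open Set Filter Topology Function Metric

/-- the branch of `(1 + s^16)^(1/16)` on the unit disc -/
noncomputable def cc (s : ℂ) : ℂ := Complex.exp (Complex.log (1 + s ^ 16) / 16)

lemma slit {s : ℂ} (hs : s ∈ ball (0:ℂ) 1) : 1 + s ^ 16 ∈ Complex.slitPlane := by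
  left
  rw [mem_ball_zero_iff] at hs
  have h1 : ‖s ^ 16‖ < 1 := by
    rw [norm_pow]
    exact pow_lt_one₀ (norm_nonneg _) hs (by norm_num)
  have h2 := Complex.abs_re_le_norm (s ^ 16)
  have h3 := neg_abs_le (s ^ 16).re
  rw [Complex.add_re, Complex.one_re]
  linarith

lemma cc_pow {s : ℂ} (hs : s ∈ ball (0:ℂ) 1) : cc s ^ 16 = 1 + s ^ 16 := by
  unfold cc
  rw [← Complex.exp_nat_mul]
  have : ((16:ℕ):ℂ) * (Complex.log (1 + s ^ 16) / 16) = Complex.log (1 + s ^ 16) := by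
    push_cast; ring
  rw [this, Complex.exp_log (Complex.slitPlane_ne_zero (slit hs))]

lemma cc_ne (s : ℂ) : cc s ≠ 0 := Complex.exp_ne_zero _

lemma cc_contDiffAt {s : ℂ} (hs : s ∈ ball (0:ℂ) 1) : ContDiffAt ℂ 2 cc s := by
  have h1 : ContDiffAt ℂ 2 (fun s : ℂ => 1 + s ^ 16) s := by fun_prop
  have h2 : ContDiffAt ℂ 2 (fun s : ℂ => Complex.log (1 + s ^ 16)) s := 
    ContDiffAt.comp (g := Complex.log) (f := fun s : ℂ => 1 + s ^ 16) s
      (Complex.contDiffAt_log (slit hs)) h1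
  exact (h2.div_const 16).cexp

lemma cc_deriv {s : ℂ} (hs : s ∈ ball (0:ℂ) 1) :
    HasDerivAt cc (cc s * s ^ 15 / (1 + s ^ 16)) s := by
  have h1 : HasDerivAt (fun s : ℂ => 1 + s ^ 16) (16 * s ^ 15) s := by
    simpa using (hasDerivAt_pow 16 s).const_add 1
  have h2 := ((h1.clog (slit hs)).div_const 16).cexp
  refine h2.congr_deriv ?_
  unfold cc
  ring

/-- the coordinate `z` in terms of `s` -/
noncomputable def ZZ (s : ℂ) : ℂ := cc s / s

lemma ZZ_pow {s : ℂ} (hs : s ∈ ball (0:ℂ) 1) (h0 : s ≠ 0) : ZZ s ^ 16 - 1 = (s ^ 16)⁻¹ := by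
  unfold ZZ
  rw [div_pow, cc_pow hs]
  field_simp
  ring

lemma ZZ_ne {s : ℂ} (h0 : s ≠ 0) : ZZ s ≠ 0 := div_ne_zero (cc_ne s) h0

lemma ZZ_pow_ne {s : ℂ} (hs : s ∈ ball (0:ℂ) 1) (h0 : s ≠ 0) : ZZ s ^ 16 ≠ 1 := by
  intro h
  have h1 := ZZ_pow hs h0
  rw [h, sub_self] at h1
  exact inv_ne_zero (pow_ne_zero 16 h0) h1.symm

lemma ZZ_deriv {s : ℂ} (hs : s ∈ ball (0:ℂ) 1) (h0 : s ≠ 0) :
    HasDerivAt ZZ (-(cc s / ((1 + s ^ 16) * s ^ 2))) s := by
  have h1 := (cc_deriv hs).fun_div (hasDerivAt_id' s) h0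
  refine h1.congr_deriv ?_
  have := Complex.slitPlane_ne_zero (slit hs)
  field_simp
  ring

lemma ZZ_contDiffAt {s : ℂ} (hs : s ∈ ball (0:ℂ) 1) (h0 : s ≠ 0) : ContDiffAt ℝ 2 ZZ s := by
  have : ContDiffAt ℂ 2 ZZ s := (cc_contDiffAt hs).div contDiffAt_id h0
  exact this.restrict_scalars ℝ

lemma factor {s : ℂ} (hs : s ∈ ball (0:ℂ) 1) (h0 : s ≠ 0) :
    Real.exp (uu (ZZ s)) * ‖-(cc s / ((1 + s ^ 16) * s ^ 2))‖ = 8 / (16 + ‖s‖ ^ 2) := by
  have hb : 0 < ‖s‖ := norm_pos_iff.2 h0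
  have hc : 0 < ‖cc s‖ := norm_pos_iff.2 (cc_ne s)
  have hG : GG (ZZ s) = -16 * Real.log ‖s‖ := by
    unfold GG
    rw [ZZ_pow hs h0, norm_inv, norm_pow, Real.log_inv, Real.log_pow]
    push_cast; ring
  have e1 : Real.exp (GG (ZZ s) / 8) = (‖s‖ ^ 2)⁻¹ := by
    rw [hG, ← Real.exp_log (inv_pos.2 (pow_pos hb 2)), Real.log_inv, Real.log_pow]
    congr 1
    push_cast; ring
  have e2 : Real.exp (-(15 / 16 * GG (ZZ s))) = ‖s‖ ^ 15 := by
    rw [hG, ← Real.exp_log (pow_pos hb 15), Real.log_pow]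
    congr 1
    push_cast; ring
  rw [exp_uu (ZZ_ne h0) (ZZ_pow_ne hs h0), e1, e2]
  have e3 : ‖-(cc s / ((1 + s ^ 16) * s ^ 2))‖ = 1 / (‖cc s‖ ^ 15 * ‖s‖ ^ 2) := by
    rw [norm_neg, norm_div, norm_mul, norm_pow, ← cc_pow hs, norm_pow]
    field_simp
  have e4 : ‖ZZ s‖ = ‖cc s‖ / ‖s‖ := by unfold ZZ; rw [norm_div]
  rw [e3, e4]
  field_simp
  ring

section transfer

variable {f g : ℂ → E3} {r : ℝ}

/-- the immersion in the disc coordinate -/
noncomputable def FF (f g : ℂ → E3) (s : ℂ) : E3 := by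
  classical exact if s = 0 then g 0 else f (ZZ s)

lemma FF_ne {s : ℂ} (h0 : s ≠ 0) : FF f g s = f (ZZ s) := by
  unfold FF; rw [if_neg h0]

lemma FF_ev {s : ℂ} (h0 : s ≠ 0) : FF f g =ᶠ[𝓝 s] fun s => f (ZZ s) := by
  filter_upwards [isOpen_ne.mem_nhds h0] with w hw
  exact FF_ne hw

lemma f_contDiffAt (hf : ContDiffOn ℝ 2 f (↑SS : Set ℂ)ᶜ) {z : ℂ} (hz : z ∉ SS) :
    ContDiffAt ℝ 2 f z := by
  have ho : IsOpen (↑SS : Set ℂ)ᶜ := SS.finite_toSet.isClosed.isOpen_compl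
  exact hf.contDiffAt (ho.mem_nhds (by simpa using hz))

lemma FF_contDiffOn (hf : ContDiffOn ℝ 2 f (↑SS : Set ℂ)ᶜ) (hr : 0 < r)
    (hg : ContDiffOn ℝ 2 g (ball (0 : ℂ) r)) (hgf : ∀ w ∈ ball (0 : ℂ) r, w ≠ 0 → g w = f w⁻¹) :
    ContDiffOn ℝ 2 (FF f g) (ball 0 1) := by
  intro s hs
  by_cases h0 : s = 0
  · subst h0
    have hY : ContDiffAt ℝ 2 (fun s : ℂ => s / cc s) 0 := by
      have : ContDiffAt ℂ 2 (fun s : ℂ => s / cc s) 0 :=
        contDiffAt_id.div (cc_contDiffAt hs) (cc_ne 0)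
      exact this.restrict_scalars ℝ
    have hY0 : (0:ℂ) / cc 0 = 0 := zero_div _
    have hgat : ContDiffAt ℝ 2 g ((0:ℂ) / cc 0) := by
      rw [hY0]
      exact hg.contDiffAt (isOpen_ball.mem_nhds (mem_ball_self hr))
    have hcomp : ContDiffAt ℝ 2 (fun s : ℂ => g (s / cc s)) 0 := hgat.comp 0 hY
    have hev : FF f g =ᶠ[𝓝 0] fun s : ℂ => g (s / cc s) := by
      have h1 : ∀ᶠ s : ℂ in 𝓝 0, s / cc s ∈ ball (0:ℂ) r := by
        apply hY.continuousAt.eventually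
        show ball (0:ℂ) r ∈ 𝓝 ((0:ℂ) / cc 0)
        rw [hY0]
        exact isOpen_ball.mem_nhds (mem_ball_self hr)
      filter_upwards [h1] with s hs
      by_cases h0 : s = 0
      · subst h0
        unfold FF
        rw [if_pos rfl, hY0]
      · rw [FF_ne h0, hgf _ hs (div_ne_zero h0 (cc_ne s))]
        unfold ZZ
        rw [inv_div]
    exact (hcomp.congr_of_eventuallyEq hev).contDiffWithinAt
  · have h1 := f_contDiffAt hf (z := ZZ s) (notMem_SS.2 ⟨ZZ_ne h0, ZZ_pow_ne hs h0⟩)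
    have h2 : ContDiffAt ℝ 2 (fun s => f (ZZ s)) s := h1.comp s (ZZ_contDiffAt hs h0)
    exact (h2.congr_of_eventuallyEq (FF_ev h0)).contDiffWithinAt

lemma FF_metric_ne (hf : ContDiffOn ℝ 2 f (↑SS : Set ℂ)ᶜ)
    (hm : ∀ z ∉ SS, ∀ v : ℂ, ‖fderiv ℝ f z v‖ = Real.exp (uu z) * ‖v‖)
    {s : ℂ} (hs : s ∈ ball (0:ℂ) 1) (h0 : s ≠ 0) (v : ℂ) :
    ‖fderiv ℝ (FF f g) s v‖ = 8 / (16 + ‖s‖ ^ 2) * ‖v‖ := by
  have hz : ZZ s ∉ SS := notMem_SS.2 ⟨ZZ_ne h0, ZZ_pow_ne hs h0⟩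
  have h1 := ((f_contDiffAt hf hz).differentiableAt (by norm_num)).hasFDerivAt
  have h2 := (ZZ_deriv hs h0).hasFDerivAt.restrictScalars ℝ
  have h3 := h1.comp s h2
  have h4 : fderiv ℝ (FF f g) s = _ := (FF_ev (f := f) (g := g) h0).fderiv_eq.trans h3.fderiv
  rw [h4]
  have h5 : (ContinuousLinearMap.comp (fderiv ℝ f (ZZ s))
      (ContinuousLinearMap.restrictScalars ℝ (ContinuousLinearMap.toSpanSingleton ℂ
        (-(cc s / ((1 + s ^ 16) * s ^ 2)))))) v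
      = fderiv ℝ f (ZZ s) (v * (-(cc s / ((1 + s ^ 16) * s ^ 2)))) := by
    simp
  refine (congrArg norm h5).trans ?_
  rw [hm _ hz, norm_mul, ← factor hs h0]
  ring

lemma FF_metric (hf : ContDiffOn ℝ 2 f (↑SS : Set ℂ)ᶜ)
    (hm : ∀ z ∉ SS, ∀ v : ℂ, ‖fderiv ℝ f z v‖ = Real.exp (uu z) * ‖v‖) (hr : 0 < r)
    (hg : ContDiffOn ℝ 2 g (ball (0 : ℂ) r)) (hgf : ∀ w ∈ ball (0 : ℂ) r, w ≠ 0 → g w = f w⁻¹) :
    ∀ s ∈ ball (0:ℂ) 1, ∀ v, ‖fderiv ℝ (FF f g) s v‖ = 8 / (16 + ‖s‖ ^ 2) * ‖v‖ := by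
  intro s hs v
  by_cases h0 : s = 0
  · subst h0
    have hF : ContDiffAt ℝ 2 (FF f g) 0 :=
      (FF_contDiffOn hf hr hg hgf).contDiffAt (isOpen_ball.mem_nhds hs)
    have hc : ContinuousAt (fderiv ℝ (FF f g)) 0 :=
      (hF.fderiv_right (m := 1) (by norm_num)).continuousAt
    have c1 : ContinuousAt (fun s => ‖fderiv ℝ (FF f g) s v‖) 0 :=
      (hc.clm_apply continuousAt_const).norm
    have c2 : ContinuousAt (fun s : ℂ => 8 / (16 + ‖s‖ ^ 2) * ‖v‖) 0 := by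
      have : ContinuousAt (fun s : ℂ => 8 / (16 + ‖s‖ ^ 2)) 0 := by
        apply ContinuousAt.div continuousAt_const (by fun_prop)
        positivity
      exact this.mul continuousAt_const
    have hev : (fun s => ‖fderiv ℝ (FF f g) s v‖) =ᶠ[𝓝[≠] 0]
        fun s : ℂ => 8 / (16 + ‖s‖ ^ 2) * ‖v‖ := by
      filter_upwards [nhdsWithin_le_nhds (isOpen_ball.mem_nhds hs), self_mem_nhdsWithin]
        with s hs1 hs2
      exact FF_metric_ne hf hm hs1 hs2 v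
    exact tendsto_nhds_unique_of_eventuallyEq (c1.mono_left nhdsWithin_le_nhds)
      (c2.mono_left nhdsWithin_le_nhds) hev
  · exact FF_metric_ne hf hm hs h0 v

/-- distances on a small circle around the cone point `0` -/
lemma circle_close (hf : ContDiffOn ℝ 2 f (↑SS : Set ℂ)ᶜ)
    (hm : ∀ z ∉ SS, ∀ v : ℂ, ‖fderiv ℝ f z v‖ = Real.exp (uu z) * ‖v‖)
    {c : ℝ} (hc0 : 0 < c) (hc : c ^ 16 = 1 / 10000) {z : ℂ} (hz : ‖z‖ = c) :
    ‖f z - f c‖ ≤ 1 / 100 := by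
  have hreg : ∀ w : ℂ, ‖w‖ = c → w ∉ SS := by
    intro w hw
    rw [notMem_SS]
    constructor
    · rintro rfl
      rw [norm_zero] at hw
      linarith
    · intro h
      have : ‖w‖ ^ 16 = 1 := by rw [← norm_pow, h, norm_one]
      rw [hw, hc] at this
      norm_num at this
  have hbd : ∀ w : ℂ, ‖w‖ = c → Real.exp (uu w) * ‖w‖ ≤ 16 / 10000 := by
    intro w hw
    obtain ⟨h1, h2⟩ := notMem_SS.1 (hreg w hw)
    rw [exp_uu h1 h2]
    have h3 : (1:ℝ) / 2 ≤ ‖w ^ 16 - 1‖ := by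
      have h4 := norm_sub_norm_le (1:ℂ) (w ^ 16)
      rw [norm_one, norm_pow, hw, hc, norm_sub_rev] at h4
      linarith
    have h5 : Real.log (1 / 2) ≤ GG w := Real.log_le_log (by norm_num) h3
    have h6 : Real.exp (-(15 / 16 * GG w)) ≤ 2 := by
      have h7 : -(15 / 16 * GG w) ≤ Real.log 2 := by
        have h8 : Real.log (1 / 2) = - Real.log 2 := by
          rw [one_div, Real.log_inv]
        have h9 : 0 < Real.log 2 := Real.log_pos (by norm_num)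
        rw [h8] at h5
        linarith
      calc Real.exp (-(15 / 16 * GG w)) ≤ Real.exp (Real.log 2) := Real.exp_le_exp.2 h7
        _ = 2 := Real.exp_log (by norm_num)
    have h10 : 8 * ‖w‖ ^ 15 * Real.exp (-(15 / 16 * GG w)) / (1 + 16 * Real.exp (GG w / 8))
        ≤ 8 * ‖w‖ ^ 15 * Real.exp (-(15 / 16 * GG w)) := by
      apply div_le_self (by positivity)
      have : 0 < Real.exp (GG w / 8) := Real.exp_pos _
      linarith
    have h11 : 0 ≤ ‖w‖ := norm_nonneg w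
    calc 8 * ‖w‖ ^ 15 * Real.exp (-(15 / 16 * GG w)) / (1 + 16 * Real.exp (GG w / 8)) * ‖w‖
        ≤ 8 * ‖w‖ ^ 15 * Real.exp (-(15 / 16 * GG w)) * ‖w‖ := by gcongr
      _ = 8 * ‖w‖ ^ 16 * Real.exp (-(15 / 16 * GG w)) := by ring
      _ ≤ 8 * ‖w‖ ^ 16 * 2 := by gcongr
      _ = 16 / 10000 := by rw [hw, hc]; norm_num
  -- the parametrised circle
  set γ : ℝ → ℂ := fun t => c * Complex.exp (t * Complex.I) with hγ
  have hγn : ∀ t, ‖γ t‖ = c := by
    intro t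
    rw [hγ]
    simp only [norm_mul, Complex.norm_real, Complex.norm_exp_ofReal_mul_I, mul_one]
    exact abs_of_pos hc0
  have hγd : ∀ t, HasDerivAt γ (γ t * Complex.I) t := by
    intro t
    have h1 : HasDerivAt (fun t : ℝ => (t : ℂ) * Complex.I) Complex.I t := by
      simpa using (Complex.ofRealCLM.hasDerivAt (x := t)).mul_const Complex.I
    have h2 := (h1.cexp).const_mul (c : ℂ)
    refine h2.congr_deriv ?_
    rw [hγ]; ring
  have hcurve : ∀ t, HasDerivAt (fun t => f (γ t)) (fderiv ℝ f (γ t) (γ t * Complex.I)) t := by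
    intro t
    exact (((f_contDiffAt hf (hreg _ (hγn t))).differentiableAt
      (by norm_num)).hasFDerivAt).comp_hasDerivAt t (hγd t)
  have hmv : ‖f (γ z.arg) - f (γ 0)‖ ≤ 16 / 10000 * ‖z.arg - 0‖ := by
    apply Convex.norm_image_sub_le_of_norm_hasDerivWithin_le
      (f := fun t => f (γ t)) (s := Set.univ) (fun t _ => (hcurve t).hasDerivWithinAt) ?_
      convex_univ (mem_univ _) (mem_univ _)
    intro t _
    rw [hm _ (hreg _ (hγn t)), norm_mul, Complex.norm_I, mul_one]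
    exact hbd _ (hγn t)
  have e1 : γ z.arg = z := by
    rw [hγ]
    simp only
    rw [← hz]
    exact Complex.norm_mul_exp_arg_mul_I z
  have e0 : γ 0 = (c : ℂ) := by rw [hγ]; simp
  rw [e1, e0, sub_zero, Real.norm_eq_abs] at hmv
  have harg := Complex.abs_arg_le_pi z
  have hpi := Real.pi_lt_d2
  linarith

theorem no_immersion (hf : ContDiffOn ℝ 2 f (↑SS : Set ℂ)ᶜ)
    (hm : ∀ z ∉ SS, ∀ v : ℂ, ‖fderiv ℝ f z v‖ = Real.exp (uu z) * ‖v‖) (hr : 0 < r)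
    (hg : ContDiffOn ℝ 2 g (ball (0 : ℂ) r)) (hgf : ∀ w ∈ ball (0 : ℂ) r, w ≠ 0 → g w = f w⁻¹) :
    False := by
  have hF := FF_contDiffOn hf hr hg hgf
  have hmF := FF_metric hf hm hr hg hgf
  -- the radius
  obtain ⟨R, hR0, hR16⟩ : ∃ R : ℝ, 0 < R ∧ R ^ 16 = 10000 / 10001 := by
    refine ⟨(10000 / 10001 : ℝ) ^ ((1:ℝ) / 16), by positivity, ?_⟩
    rw [← Real.rpow_natCast, ← Real.rpow_mul (by norm_num)]
    norm_num
  obtain ⟨c, hc0, hc16⟩ : ∃ c : ℝ, 0 < c ∧ c ^ 16 = 1 / 10000 := by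
    refine ⟨(1 / 10000 : ℝ) ^ ((1:ℝ) / 16), by positivity, ?_⟩
    rw [← Real.rpow_natCast, ← Real.rpow_mul (by norm_num)]
    norm_num
  have hR1 : R < 1 := by
    by_contra hcon
    push Not at hcon
    have : 1 ≤ R ^ 16 := one_le_pow₀ hcon
    rw [hR16] at this
    norm_num at this
  have hR2 : 99 / 100 ≤ R ^ 2 := by
    have h1 : R ^ 16 ≤ R ^ 2 := pow_le_pow_of_le_one hR0.le hR1.le (by norm_num)
    rw [hR16] at h1
    norm_num at h1 ⊢
    linarith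
  refine no_disc hF hmF hR0 hR1 hR2 (f c) fun s hs => ?_
  -- the nearest point where the circle comes close to the cone point
  set φ := s.arg with hφ
  have hs_eq : (R : ℂ) * Complex.exp (φ * Complex.I) = s := by
    rw [← hs]; exact Complex.norm_mul_exp_arg_mul_I s
  set k : ℤ := round ((16 * φ - Real.pi) / (2 * Real.pi)) with hk
  set φ' : ℝ := (Real.pi + 2 * Real.pi * k) / 16 with hφ'
  have hpi : 0 < Real.pi := Real.pi_pos
  have hφφ : |φ - φ'| ≤ Real.pi / 16 := by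
    have h1 := abs_sub_round ((16 * φ - Real.pi) / (2 * Real.pi))
    have h2 : φ - φ' = (2 * Real.pi / 16) * ((16 * φ - Real.pi) / (2 * Real.pi) - k) := by
      rw [hφ']; field_simp; ring
    rw [h2, abs_mul, abs_of_pos (by positivity)]
    calc 2 * Real.pi / 16 * |(16 * φ - Real.pi) / (2 * Real.pi) - k|
        ≤ 2 * Real.pi / 16 * (1 / 2) := by gcongr
      _ = Real.pi / 16 := by ring
  set s' : ℂ := (R : ℂ) * Complex.exp (φ' * Complex.I) with hs'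
  have hs'n : ‖s'‖ = R := by
    rw [hs', norm_mul, Complex.norm_real, Complex.norm_exp_ofReal_mul_I, mul_one]
    exact abs_of_pos hR0
  have hs'16 : s' ^ 16 = -((R ^ 16 : ℝ) : ℂ) := by
    rw [hs', mul_pow, ← Complex.exp_nat_mul]
    have : ((16:ℕ):ℂ) * ((φ' : ℂ) * Complex.I) = Real.pi * Complex.I + k * (2 * Real.pi * Complex.I) := by
      rw [hφ']; push_cast; ring
    rw [this, Complex.exp_add, Complex.exp_pi_mul_I, Complex.exp_int_mul_two_pi_mul_I]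
    push_cast
    ring
  have hs1 : s ∈ ball (0:ℂ) 1 := by rw [mem_ball_zero_iff, hs]; exact hR1
  have hs1' : s' ∈ ball (0:ℂ) 1 := by rw [mem_ball_zero_iff, hs'n]; exact hR1
  have hs0' : s' ≠ 0 := by
    rw [← norm_pos_iff, hs'n]; exact hR0
  have hss : ‖s - s'‖ ≤ Real.pi / 16 := by
    have e1 : s - s' = (R : ℂ) * Complex.exp (φ' * Complex.I)
        * (Complex.exp (Complex.I * ((φ - φ' : ℝ) : ℂ)) - 1) := by
      rw [← hs_eq, hs', mul_sub, mul_one, mul_assoc (R : ℂ), ← Complex.exp_add]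
      congr 3
      push_cast
      ring
    rw [e1, norm_mul, norm_mul, Complex.norm_real, Complex.norm_exp_ofReal_mul_I, mul_one,
      Real.norm_eq_abs, abs_of_pos hR0]
    have h2 := Real.norm_exp_I_mul_ofReal_sub_one_le (x := φ - φ')
    rw [Real.norm_eq_abs] at h2
    calc R * ‖Complex.exp (Complex.I * ((φ - φ' : ℝ) : ℂ)) - 1‖ ≤ 1 * (Real.pi / 16) := by
          apply mul_le_mul hR1.le (h2.trans hφφ) (norm_nonneg _) (by norm_num)
      _ = Real.pi / 16 := one_mul _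
  -- the two estimates
  have h1 : ‖FF f g s - FF f g s'‖ ≤ 1 / 2 * ‖s - s'‖ := by
    refine (convex_ball (0:ℂ) 1).norm_image_sub_le_of_norm_fderiv_le (𝕜 := ℝ)
      (fun x hx => (hF.contDiffAt (isOpen_ball.mem_nhds hx)).differentiableAt (by norm_num))
      (fun x hx => ?_) hs1' hs1
    refine ContinuousLinearMap.opNorm_le_bound _ (by norm_num) fun v => ?_
    rw [hmF x hx v]
    have : 8 / (16 + ‖x‖ ^ 2) ≤ 1 / 2 := by
      rw [div_le_div_iff₀ (by positivity) (by norm_num)]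
      nlinarith [sq_nonneg ‖x‖]
    gcongr
  have h2 : ‖FF f g s' - f c‖ ≤ 1 / 100 := by
    rw [FF_ne hs0']
    apply circle_close hf hm hc0 hc16
    have h3 := ZZ_pow hs1' hs0'
    rw [hs'16, hR16] at h3
    have h4 : ZZ s' ^ 16 = -(1 / 10000 : ℂ) := by
      have : ZZ s' ^ 16 = (-(((10000 / 10001 : ℝ)) : ℂ))⁻¹ + 1 := by
        rw [← h3]; ring
      rw [this]
      push_cast
      norm_num
    have h5 : ‖ZZ s'‖ ^ 16 = c ^ 16 := by
      rw [← norm_pow, h4, hc16]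
      simp
    exact (pow_left_inj₀ (norm_nonneg _) hc0.le (by norm_num)).1 h5
  have hpi2 := Real.pi_lt_d2
  calc ‖FF f g s - f c‖ = ‖(FF f g s - FF f g s') + (FF f g s' - f c)‖ := by congr 1; abel
    _ ≤ ‖FF f g s - FF f g s'‖ + ‖FF f g s' - f c‖ := norm_add_le _ _
    _ ≤ 1 / 8 := by linarith

end transfer

end Run7.h208.Cone
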