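import Mathlib

set_option autoImplicit false

/-!
The explicit spherical metric with cone points `0` (angle `32 π`) and the sixteenth roots of unity
(angle `π / 8`), developed by `4 (z^16 - 1)^(1/16)`.
-/

namespace Run7.h208.Cone

open Set Filter Topology Function Metric InnerProductSpace

noncomputable def uu (z : ℂ) : ℝ :=
  Real.log 8 + 15 * Real.log ‖z‖ - 15 / 16 * Real.log ‖z ^ 16 - 1‖
    - Real.log (1 + 16 * ‖z ^ 16 - 1‖ ^ ((1:ℝ) / 8))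

open Classical in
noncomputable def SS : Finset ℂ := insert 0 (Polynomial.nthRoots 16 (1:ℂ)).toFinset

lemma mem_SS {z : ℂ} : z ∈ SS ↔ z = 0 ∨ z ^ 16 = 1 := by
  unfold SS
  rw [Finset.mem_insert, Multiset.mem_toFinset, Polynomial.mem_nthRoots (by norm_num)]

lemma notMem_SS {z : ℂ} : z ∉ SS ↔ z ≠ 0 ∧ z ^ 16 ≠ 1 := by
  rw [mem_SS]; push Not; rfl

/-- the logarithm of `|z^16 - 1|` -/
noncomputable def GG (z : ℂ) : ℝ := Real.log ‖z ^ 16 - 1‖

noncomputable def chi (t : ℝ) : ℝ := Real.log (1 + 16 * Real.exp (t / 8))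
noncomputable def chi1 (t : ℝ) : ℝ := 2 * Real.exp (t / 8) / (1 + 16 * Real.exp (t / 8))

lemma exp8 (t : ℝ) : HasDerivAt (fun t : ℝ => Real.exp (t / 8)) (Real.exp (t / 8) / 8) t := by
  have h := ((hasDerivAt_id' t).div_const 8).exp
  refine h.congr_deriv ?_
  ring

lemma chi_deriv (t : ℝ) : HasDerivAt chi (chi1 t) t := by
  have hpos : 0 < 1 + 16 * Real.exp (t / 8) := by positivity
  have h := (((exp8 t).const_mul 16).const_add 1).log hpos.ne'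
  refine h.congr_deriv ?_
  unfold chi1
  congr 1
  ring

lemma chi1_deriv (t : ℝ) : HasDerivAt chi1
    (Real.exp (t / 8) / 4 / (1 + 16 * Real.exp (t / 8)) ^ 2) t := by
  have hpos : 0 < 1 + 16 * Real.exp (t / 8) := by positivity
  have h := ((exp8 t).const_mul 2).fun_div (((exp8 t).const_mul 16).const_add 1) hpos.ne'
  refine h.congr_deriv ?_
  congr 1
  ring

/-- second derivatives of a composition with a function of one real variable -/
lemma comp_second {G : ℂ → ℝ} {z : ℂ} (hG : ContDiffAt ℝ 2 G z) {χ χ1 : ℝ → ℝ} {c : ℝ}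
    (h1 : ∀ t, HasDerivAt χ (χ1 t) t) (h2 : HasDerivAt χ1 c (G z)) (v : ℂ) :
    fderiv ℝ (fderiv ℝ (fun w => χ (G w))) z v v
      = c * (fderiv ℝ G z v) ^ 2 + χ1 (G z) * fderiv ℝ (fderiv ℝ G) z v v := by
  have hev : ∀ᶠ w in 𝓝 z, ContDiffAt ℝ 2 G w := hG.eventually (by simp)
  have hf : fderiv ℝ (fun w => χ (G w)) =ᶠ[𝓝 z] fun w => χ1 (G w) • fderiv ℝ G w := by
    filter_upwards [hev] with w hw
    have := (h1 (G w)).comp_hasFDerivAt w (hw.differentiableAt (by norm_num)).hasFDerivAt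
    exact this.fderiv
  have hd : HasFDerivAt (fderiv ℝ G) (fderiv ℝ (fderiv ℝ G) z) z :=
    ((hG.fderiv_right (m := 1) (by norm_num)).differentiableAt (by norm_num)).hasFDerivAt
  have hc := h2.comp_hasFDerivAt z (hG.differentiableAt (by norm_num)).hasFDerivAt
  have hp := hc.smul hd
  rw [hf.fderiv_eq]
  have e : fderiv ℝ (fun w => χ1 (G w) • fderiv ℝ G w) z = _ := hp.fderiv
  rw [e]
  simp
  ring

lemma p_deriv (z : ℂ) : HasDerivAt (fun z : ℂ => z ^ 16 - 1) (16 * z ^ 15) z := by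
  have := (hasDerivAt_pow 16 z).sub_const 1
  simpa using this

lemma GG_fderiv {z : ℂ} (hz : z ^ 16 ≠ 1) (v : ℂ) :
    fderiv ℝ GG z v = inner ℝ (z ^ 16 - 1) (16 * z ^ 15 * v) / ‖z ^ 16 - 1‖ ^ 2 := by
  have hne : z ^ 16 - 1 ≠ 0 := sub_ne_zero.2 hz
  have hn : 0 < ‖z ^ 16 - 1‖ ^ 2 := by positivity
  have h1 := (p_deriv z).hasFDerivAt.restrictScalars ℝ
  have h2 := h1.norm_sq
  have h3 := (h2.log hn.ne').const_mul (1/2 : ℝ)
  have hG : GG = fun z => 1 / 2 * Real.log (‖z ^ 16 - 1‖ ^ 2) := by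
    funext z
    unfold GG
    rw [Real.log_pow]
    push_cast
    ring
  rw [hG, h3.fderiv]
  simp
  field_simp
  ring

lemma GG_grad {z : ℂ} (hz : z ^ 16 ≠ 1) :
    (fderiv ℝ GG z 1) ^ 2 + (fderiv ℝ GG z Complex.I) ^ 2
      = 256 * ‖z‖ ^ 30 / ‖z ^ 16 - 1‖ ^ 2 := by
  have hne : z ^ 16 - 1 ≠ 0 := sub_ne_zero.2 hz
  have hn : 0 < ‖z ^ 16 - 1‖ ^ 2 := by positivity
  rw [GG_fderiv hz, GG_fderiv hz]
  have key : ∀ p q : ℂ, (inner ℝ p (q * 1)) ^ 2 + (inner ℝ p (q * Complex.I)) ^ 2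
      = ‖p‖ ^ 2 * ‖q‖ ^ 2 := by
    intro p q
    rw [Complex.inner, Complex.inner, ← Complex.normSq_eq_norm_sq, ← Complex.normSq_eq_norm_sq,
      Complex.normSq_apply, Complex.normSq_apply]
    simp
    ring
  rw [div_pow, div_pow, ← add_div, key (z ^ 16 - 1) (16 * z ^ 15)]
  have h16 : ‖16 * z ^ 15‖ ^ 2 = 256 * ‖z‖ ^ 30 := by
    rw [norm_mul, norm_pow]
    simp
    ring
  rw [h16]
  field_simp

lemma GG_harmonic {z : ℂ} (hz : z ^ 16 ≠ 1) : HarmonicAt GG z := by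
  have hne : z ^ 16 - 1 ≠ 0 := sub_ne_zero.2 hz
  exact AnalyticAt.harmonicAt_log_norm (by fun_prop) hne

lemma L_harmonic {z : ℂ} (hz : z ≠ 0) : HarmonicAt (fun z : ℂ => Real.log ‖z‖) z :=
  AnalyticAt.harmonicAt_log_norm (f := fun z => z) (by fun_prop) hz

/-- the nice form of the metric off the singular set -/
noncomputable def vv (z : ℂ) : ℝ :=
  Real.log 8 + 15 * Real.log ‖z‖ - 15 / 16 * GG z - chi (GG z)

lemma rpow_eq {z : ℂ} (hz : z ^ 16 ≠ 1) : ‖z ^ 16 - 1‖ ^ ((1:ℝ) / 8) = Real.exp (GG z / 8) := by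
  have hne : 0 < ‖z ^ 16 - 1‖ := norm_pos_iff.2 (sub_ne_zero.2 hz)
  rw [Real.rpow_def_of_pos hne]
  unfold GG
  congr 1
  ring

lemma uu_eq_vv {z : ℂ} (hz : z ^ 16 ≠ 1) : uu z = vv z := by
  unfold uu vv chi
  rw [rpow_eq hz]
  rfl

lemma open_cond : IsOpen {z : ℂ | z ≠ 0 ∧ z ^ 16 ≠ 1} := by
  have h1 : IsOpen {z : ℂ | z ≠ 0} := isOpen_ne
  have h2 : IsOpen {z : ℂ | z ^ 16 ≠ 1} := isOpen_ne_fun (by fun_prop) continuous_const
  exact h1.inter h2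

lemma uu_ev {z : ℂ} (hz0 : z ≠ 0) (hz : z ^ 16 ≠ 1) : uu =ᶠ[𝓝 z] vv := by
  filter_upwards [open_cond.mem_nhds ⟨hz0, hz⟩] with w hw
  exact uu_eq_vv hw.2

lemma chi_contDiff : ContDiff ℝ 2 chi := by
  unfold chi
  apply ContDiff.log (by fun_prop)
  intro x
  positivity

lemma vv_contDiffAt {z : ℂ} (hz0 : z ≠ 0) (hz : z ^ 16 ≠ 1) : ContDiffAt ℝ 2 vv z := by
  unfold vv
  have h1 := (L_harmonic hz0).1
  have h2 := (GG_harmonic hz).1
  exact ((contDiffAt_const.add (contDiffAt_const.mul h1)).sub (contDiffAt_const.mul h2)).sub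
    (chi_contDiff.contDiffAt.comp z h2)

lemma uu_contDiffAt {z : ℂ} (hz0 : z ≠ 0) (hz : z ^ 16 ≠ 1) : ContDiffAt ℝ 2 uu z :=
  (vv_contDiffAt hz0 hz).congr_of_eventuallyEq (uu_ev hz0 hz)

lemma exp_uu {z : ℂ} (hz0 : z ≠ 0) (hz : z ^ 16 ≠ 1) : Real.exp (uu z) =
    8 * ‖z‖ ^ 15 * Real.exp (-(15 / 16 * GG z)) / (1 + 16 * Real.exp (GG z / 8)) := by
  rw [uu_eq_vv hz]
  unfold vv chi
  have hz1 : 0 < ‖z‖ := norm_pos_iff.2 hz0
  rw [Real.exp_sub, Real.exp_log (by positivity), sub_eq_add_neg, Real.exp_add, Real.exp_add,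
    Real.exp_log (by norm_num)]
  congr 3
  rw [show (15:ℝ) * Real.log ‖z‖ = ((15:ℕ):ℝ) * Real.log ‖z‖ by norm_num, Real.exp_nat_mul,
    Real.exp_log hz1]

lemma exp_GG {z : ℂ} (hz : z ^ 16 ≠ 1) : Real.exp (GG z) = ‖z ^ 16 - 1‖ :=
  Real.exp_log (norm_pos_iff.2 (sub_ne_zero.2 hz))

theorem uu_liouville {z : ℂ} (hz0 : z ≠ 0) (hz : z ^ 16 ≠ 1) :
    iteratedFDeriv ℝ 2 uu z ![(1 : ℂ), 1] + iteratedFDeriv ℝ 2 uu z ![Complex.I, Complex.I]
      = -Real.exp (2 * uu z) := by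
  have hlap : iteratedFDeriv ℝ 2 uu z ![(1 : ℂ), 1] + iteratedFDeriv ℝ 2 uu z ![Complex.I, Complex.I]
      = Laplacian.laplacian uu z := by
    rw [laplacian_eq_iteratedFDeriv_complexPlane]
  rw [hlap, (laplacian_congr_nhds (uu_ev hz0 hz)).eq_of_nhds]
  have h1 := (L_harmonic hz0)
  have h2 := (GG_harmonic hz)
  have hχ : ContDiffAt ℝ 2 (fun w => chi (GG w)) z := chi_contDiff.contDiffAt.comp z h2.1
  have hv : vv = (((fun _ : ℂ => Real.log 8) + (15:ℝ) • (fun z : ℂ => Real.log ‖z‖))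
      - (15 / 16 : ℝ) • GG) - fun w => chi (GG w) := by
    funext w
    simp [vv]
  have c1 : ContDiffAt ℝ 2 ((15:ℝ) • (fun z : ℂ => Real.log ‖z‖)) z := contDiffAt_const.smul h1.1
  have c2 : ContDiffAt ℝ 2 ((15 / 16 : ℝ) • GG) z := contDiffAt_const.smul h2.1
  have c0 : ContDiffAt ℝ 2 (fun _ : ℂ => Real.log 8) z := contDiffAt_const
  have hL0 : Laplacian.laplacian (fun z : ℂ => Real.log ‖z‖) z = 0 := h1.2.eq_of_nhds
  have hG0 : Laplacian.laplacian GG z = 0 := h2.2.eq_of_nhds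
  have d1 : ContDiffAt ℝ 2 ((fun _ : ℂ => Real.log 8) + (15:ℝ) • (fun z : ℂ => Real.log ‖z‖)) z :=
    c0.add c1
  have d2 : ContDiffAt ℝ 2 (((fun _ : ℂ => Real.log 8) + (15:ℝ) • (fun z : ℂ => Real.log ‖z‖))
      - (15 / 16 : ℝ) • GG) z := d1.sub c2
  rw [hv, d2.laplacian_sub hχ, d1.laplacian_sub c2, c0.laplacian_add c1,
    laplacian_smul _ h1.1, laplacian_smul _ h2.1, hL0, hG0]
  have hconst : Laplacian.laplacian (fun _ : ℂ => Real.log 8) z = 0 := by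
    rw [laplacian_const]; rfl
  rw [hconst]
  have hcomp : Laplacian.laplacian (fun w => chi (GG w)) z
      = Real.exp (GG z / 8) / 4 / (1 + 16 * Real.exp (GG z / 8)) ^ 2
        * (256 * ‖z‖ ^ 30 / ‖z ^ 16 - 1‖ ^ 2) := by
    rw [laplacian_eq_iteratedFDeriv_complexPlane]
    have hGl : iteratedFDeriv ℝ 2 GG z ![(1 : ℂ), 1] + iteratedFDeriv ℝ 2 GG z ![Complex.I, Complex.I]
      = 0 := by
      rw [← hG0, laplacian_eq_iteratedFDeriv_complexPlane]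
    simp only [iteratedFDeriv_two_apply, Matrix.cons_val_zero, Matrix.cons_val_one] at hGl ⊢
    rw [comp_second h2.1 chi_deriv (chi1_deriv (GG z)), comp_second h2.1 chi_deriv
      (chi1_deriv (GG z)), ← GG_grad hz]
    have : fderiv ℝ (fderiv ℝ GG) z Complex.I Complex.I = - fderiv ℝ (fderiv ℝ GG) z 1 1 := by
      linarith
    rw [this]
    ring
  rw [hcomp]
  have hz1 : 0 < ‖z‖ := norm_pos_iff.2 hz0
  have hp : 0 < ‖z ^ 16 - 1‖ := norm_pos_iff.2 (sub_ne_zero.2 hz)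
  have hexp : Real.exp (2 * uu z) = Real.exp (uu z) ^ 2 := by
    rw [← Real.exp_nat_mul]; norm_num
  rw [hexp, exp_uu hz0 hz]
  have hsq : Real.exp (-(15 / 16 * GG z)) ^ 2 = Real.exp (GG z / 8) / ‖z ^ 16 - 1‖ ^ 2 := by
    rw [← exp_GG hz, ← Real.exp_nat_mul, ← Real.exp_nat_mul, ← Real.exp_sub]
    congr 1
    push_cast
    ring
  rw [div_pow, mul_pow, mul_pow, hsq]
  simp
  field_simp
  ring

end Run7.h208.Cone
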