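import Pool.Agent.Run7.h208.ConeU

set_option autoImplicit false

namespace Run7.h208.Cone

open Set Filter Topology Function Metric

lemma uu_contDiffOn : ContDiffOn ℝ 2 uu (↑SS : Set ℂ)ᶜ := by
  intro z hz
  have hz' : z ∉ SS := by simpa using hz
  obtain ⟨h1, h2⟩ := notMem_SS.1 hz'
  exact (uu_contDiffAt h1 h2).contDiffWithinAt

/-- the last term -/
noncomputable def tail (z : ℂ) : ℝ := Real.log (1 + 16 * ‖z ^ 16 - 1‖ ^ ((1:ℝ) / 8))

lemma tail_cont : Continuous tail := by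
  unfold tail
  have h1 : Continuous fun z : ℂ => ‖z ^ 16 - 1‖ ^ ((1:ℝ) / 8) :=
    Continuous.rpow_const (by fun_prop) (fun z => Or.inr (by norm_num))
  refine Continuous.log (by fun_prop) fun z => ?_
  positivity

lemma cone_zero : ∃ θ : ℝ, 0 < θ ∧ θ ≠ 1 ∧ ∃ h : ℂ → ℝ, ContinuousAt h 0 ∧
    ∀ z : ℂ, z ≠ 0 → uu z = (θ - 1) * Real.log ‖z - 0‖ + h z := by
  refine ⟨16, by norm_num, by norm_num,
    fun z => Real.log 8 - 15 / 16 * Real.log ‖z ^ 16 - 1‖ - tail z, ?_, ?_⟩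
  · have h1 : ContinuousAt (fun z : ℂ => Real.log ‖z ^ 16 - 1‖) 0 := by
      apply ContinuousAt.log (by fun_prop)
      norm_num
    exact (continuousAt_const.sub (continuousAt_const.mul h1)).sub tail_cont.continuousAt
  · intro z _
    unfold uu tail
    rw [sub_zero]
    ring

lemma cone_root {p : ℂ} (hp : p ^ 16 = 1) : ∃ θ : ℝ, 0 < θ ∧ θ ≠ 1 ∧ ∃ h : ℂ → ℝ,
    ContinuousAt h p ∧ ∀ z : ℂ, z ≠ p → uu z = (θ - 1) * Real.log ‖z - p‖ + h z := by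
  classical
  have hp0 : p ≠ 0 := by
    rintro rfl
    norm_num at hp
  let q : ℂ → ℂ := fun z => ∑ i ∈ Finset.range 16, z ^ i * p ^ (16 - 1 - i)
  have hq : ∀ z, z ^ 16 - 1 = q z * (z - p) := by
    intro z
    show z ^ 16 - 1 = (∑ i ∈ Finset.range 16, z ^ i * p ^ (16 - 1 - i)) * (z - p)
    rw [geom_sum₂_mul, hp]
  have hqp : q p ≠ 0 := by
    show (∑ i ∈ Finset.range 16, p ^ i * p ^ (16 - 1 - i)) ≠ 0
    rw [geom_sum₂_self]
    have : p ^ (16 - 1) ≠ 0 := pow_ne_zero _ hp0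
    exact mul_ne_zero (by norm_num) this
  have hqc : Continuous q := by
    show Continuous fun z => ∑ i ∈ Finset.range 16, z ^ i * p ^ (16 - 1 - i)
    fun_prop
  let nice : ℂ → ℝ := fun z => Real.log 8 + 15 * Real.log ‖z‖ - 15 / 16 * Real.log ‖q z‖ - tail z
  have hnice : ContinuousAt nice p := by
    have h1 : ContinuousAt (fun z : ℂ => Real.log ‖z‖) p :=
      continuousAt_id.norm.log (norm_ne_zero_iff.2 hp0)
    have h2 : ContinuousAt (fun z : ℂ => Real.log ‖q z‖) p :=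
      hqc.continuousAt.norm.log (norm_ne_zero_iff.2 hqp)
    exact ((continuousAt_const.add (continuousAt_const.mul h1)).sub
      (continuousAt_const.mul h2)).sub tail_cont.continuousAt
  let h : ℂ → ℝ := fun z => if z = p then nice p else uu z - (1 / 16 - 1) * Real.log ‖z - p‖
  refine ⟨1 / 16, by norm_num, by norm_num, h, ?_, ?_⟩
  · have hev : h =ᶠ[𝓝 p] nice := by
      have hne : ∀ᶠ z in 𝓝 p, q z ≠ 0 := hqc.continuousAt.eventually_ne hqp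
      filter_upwards [hne] with z hz
      by_cases hzp : z = p
      · subst hzp
        simp [h]
      · have h1 : Real.log ‖z ^ 16 - 1‖ = Real.log ‖q z‖ + Real.log ‖z - p‖ := by
          rw [hq z, norm_mul, Real.log_mul (norm_ne_zero_iff.2 hz)
            (norm_ne_zero_iff.2 (sub_ne_zero.2 hzp))]
        show (if z = p then nice p else uu z - (1 / 16 - 1) * Real.log ‖z - p‖) = _
        rw [if_neg hzp]
        show _ = Real.log 8 + 15 * Real.log ‖z‖ - 15 / 16 * Real.log ‖q z‖ - tail z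
        unfold uu tail
        rw [h1]
        ring
    exact hnice.congr hev.symm
  · intro z hz
    show _ = _ + (if z = p then nice p else uu z - (1 / 16 - 1) * Real.log ‖z - p‖)
    rw [if_neg hz]
    ring

lemma cone_points : ∀ p ∈ SS, ∃ θ : ℝ, 0 < θ ∧ θ ≠ 1 ∧ ∃ h : ℂ → ℝ, ContinuousAt h p ∧
    ∀ z : ℂ, z ≠ p → uu z = (θ - 1) * Real.log ‖z - p‖ + h z := by
  intro p hp
  rcases mem_SS.1 hp with rfl | hp
  · exact cone_zero
  · exact cone_root hp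

lemma at_infinity : ∃ r : ℝ, 0 < r ∧ ∃ φ : ℂ → ℝ, ContDiffOn ℝ 2 φ (Metric.ball (0 : ℂ) r) ∧
    ∀ w ∈ Metric.ball (0 : ℂ) r, w ≠ 0 → φ w = uu w⁻¹ - 2 * Real.log ‖w‖ := by
  refine ⟨1 / 2, by norm_num, fun w => Real.log 8 - 15 / 16 * Real.log ‖1 - w ^ 16‖
    - Real.log (‖w‖ ^ 2 + 16 * ‖1 - w ^ 16‖ ^ ((1:ℝ) / 8)), ?_, ?_⟩
  · intro w hw
    have hw1 : 1 - w ^ 16 ≠ 0 := by
      intro h
      have h1 : w ^ 16 = 1 := (sub_eq_zero.1 h).symm
      have h2 : ‖w‖ ^ 16 = 1 := by rw [← norm_pow, h1, norm_one]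
      rw [mem_ball_zero_iff] at hw
      have h3 : ‖w‖ ^ 16 ≤ (1 / 2) ^ 16 := by gcongr
      rw [h2] at h3
      norm_num at h3
    have hn : ‖1 - w ^ 16‖ ≠ 0 := norm_ne_zero_iff.2 hw1
    have h0 : ContDiffAt ℝ 2 (fun w : ℂ => ‖1 - w ^ 16‖) w := by
      have h : ContDiffAt ℝ 2 (fun w : ℂ => 1 - w ^ 16) w := by fun_prop
      exact h.norm ℝ hw1
    have h1 : ContDiffAt ℝ 2 (fun w : ℂ => Real.log ‖1 - w ^ 16‖) w := h0.log hn
    have h2 : ContDiffAt ℝ 2 (fun w : ℂ => ‖1 - w ^ 16‖ ^ ((1:ℝ) / 8)) w :=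
      h0.rpow_const_of_ne hn
    have h3 : ContDiffAt ℝ 2 (fun w : ℂ => ‖w‖ ^ 2) w := (contDiff_norm_sq ℝ).contDiffAt
    have h4 : ContDiffAt ℝ 2 (fun w : ℂ => ‖w‖ ^ 2 + 16 * ‖1 - w ^ 16‖ ^ ((1:ℝ) / 8)) w :=
      h3.add (contDiffAt_const.mul h2)
    have hpos : ‖w‖ ^ 2 + 16 * ‖1 - w ^ 16‖ ^ ((1:ℝ) / 8) ≠ 0 := by
      have : 0 < ‖1 - w ^ 16‖ := norm_pos_iff.2 hw1
      positivity
    exact ((contDiffAt_const.sub (contDiffAt_const.mul h1)).sub (h4.log hpos)).contDiffWithinAt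
  · intro w hw hw0
    have hw1 : 1 - w ^ 16 ≠ 0 := by
      intro h
      have h1 : w ^ 16 = 1 := (sub_eq_zero.1 h).symm
      have h2 : ‖w‖ ^ 16 = 1 := by rw [← norm_pow, h1, norm_one]
      rw [mem_ball_zero_iff] at hw
      have h3 : ‖w‖ ^ 16 ≤ (1 / 2) ^ 16 := by gcongr
      rw [h2] at h3
      norm_num at h3
    have hb : 0 < ‖w‖ := norm_pos_iff.2 hw0
    have ha : 0 < ‖1 - w ^ 16‖ := norm_pos_iff.2 hw1
    have e1 : ‖w⁻¹ ^ 16 - 1‖ = ‖1 - w ^ 16‖ / ‖w‖ ^ 16 := by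
      rw [← norm_pow, ← norm_div]
      congr 1
      field_simp
    have e2 : (‖1 - w ^ 16‖ / ‖w‖ ^ 16) ^ ((1:ℝ) / 8) = ‖1 - w ^ 16‖ ^ ((1:ℝ) / 8) / ‖w‖ ^ 2 := by
      rw [Real.div_rpow ha.le (by positivity)]
      congr 1
      rw [← Real.rpow_natCast, ← Real.rpow_mul hb.le, ← Real.rpow_natCast]
      norm_num
    unfold uu
    rw [e1, e2, norm_inv, Real.log_inv, Real.log_div ha.ne' (by positivity), Real.log_pow]
    have hA : 0 < ‖1 - w ^ 16‖ ^ ((1:ℝ) / 8) := by positivity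
    have e3 : 1 + 16 * (‖1 - w ^ 16‖ ^ ((1:ℝ) / 8) / ‖w‖ ^ 2)
        = (‖w‖ ^ 2 + 16 * ‖1 - w ^ 16‖ ^ ((1:ℝ) / 8)) / ‖w‖ ^ 2 := by
      field_simp
    rw [e3, Real.log_div (by positivity) (by positivity), Real.log_pow]
    push_cast
    ring

end Run7.h208.Cone
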